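import Pool.Agent.H41.XF.Hl

/-!
# The field calculus (ROB => DIM, MP_8f2e1c_an): the field `X` in charts, transport, Galois lemma

`XI X O Φ`: `X (Φ y) = Φ' y * X y + holomorphic` on `O` (iterates of `f`, their branches, the symmetry at a critical point). `ch`: a map in charts.
`Yn`: the field in the chart `x n + R n u`. `fl_tr`, `fl_two`, `fl_pull`: transport. `fl_typ`: at typical points. `fl_fr`: frames.
`fl_gal`: two descriptions of the field by `b * conj g / g'` over a transport `F` with `F' ≠ 0` at one point: `g' ∘ F = a g + c`.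
-/

set_option autoImplicit false

open Filter Topology Metric Set MeasureTheory

namespace Pool.Agent.H41.XF

open Pool.Agent.H56.UD

/-- `Φ` transports the field `X` up to holomorphic functions -/
structure XI (X : ℂ → ℂ) (O : Set ℂ) (Φ : ℂ → ℂ) : Prop where
  op : IsOpen O
  df : DifferentiableOn ℂ Φ O
  eq : ∃ h : ℂ → ℂ, DifferentiableOn ℂ h O ∧ ∀ y ∈ O, X (Φ y) = deriv Φ y * X y + h y

/-- a map in charts -/
noncomputable def ch (Φ : ℂ → ℂ) (x R x' R' : ℂ) (u : ℂ) : ℂ := (Φ (x + R * u) - x') / R'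

/-- the field in the charts -/
noncomputable def Yn (X : ℂ → ℂ) (x R ν : ℕ → ℂ) (n : ℕ) (u : ℂ) : ℂ := ν n * (X (x n + R n * u) / R n)

variable {f : ℂ → ℂ} {U J P Cr E : Set ℂ} {δ b0 : ℝ} {η : ℂ → ℂ → ℂ} {ρ : ℝ} {X hh μ : ℂ → ℂ}

theorem xi_it (h : PS f U J P Cr δ η ρ) (hX : FX f U J E δ X hh μ b0) (k : ℕ) : XI X (dm f U J δ k) (f^[k]) :=
  ⟨dm_open h k, dm_diff h k, X_it h hX k⟩

theorem xi_f (h : PS f U J P Cr δ η ρ) (hX : FX f U J E δ X hh μ b0) : XI X U f :=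
  ⟨h.Uo, h.fd, hh, hX.hd, hX.eq⟩

theorem xi_id (X : ℂ → ℂ) : XI X univ id :=
  ⟨isOpen_univ, differentiableOn_id, fun _ => 0, differentiableOn_const 0, fun y _ => by simp⟩

theorem xi_mono {O O' : Set ℂ} {Φ : ℂ → ℂ} (h : XI X O Φ) (hO : IsOpen O') (hO' : O' ⊆ O) : XI X O' Φ := by
  obtain ⟨g, h1, h2⟩ := h.eq
  exact ⟨hO, h.df.mono hO', g, h1.mono hO', fun y hy => h2 y (hO' hy)⟩

/-- division: `Φ2 (ι y) = Φ1 y` -/
theorem xi_div {O O1 O2 : Set ℂ} {Φ1 Φ2 ι : ℂ → ℂ} (h1 : XI X O1 Φ1) (h2 : XI X O2 Φ2) (hO : IsOpen O)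
    (hι : DifferentiableOn ℂ ι O) (hm : ∀ y ∈ O, y ∈ O1 ∧ ι y ∈ O2 ∧ Φ2 (ι y) = Φ1 y ∧ deriv Φ2 (ι y) ≠ 0) :
    XI X O ι := by
  obtain ⟨g1, a1, a2⟩ := h1.eq
  obtain ⟨g2, b1, b2⟩ := h2.eq
  have hmap : MapsTo ι O O2 := fun y hy => (hm y hy).2.1
  refine ⟨hO, hι, fun y => (g1 y - g2 (ι y)) / deriv Φ2 (ι y), ?_, fun y hy => ?_⟩
  · refine DifferentiableOn.div ((a1.mono fun y hy => (hm y hy).1).sub (b1.comp hι hmap))
      ((h2.df.deriv h2.op).comp hι hmap) fun y hy => (hm y hy).2.2.2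
  · obtain ⟨c1, c2, c3, c4⟩ := hm y hy
    have d1 := (hι.differentiableAt (hO.mem_nhds hy)).hasDerivAt
    have d2 := (h2.df.differentiableAt (h2.op.mem_nhds c2)).hasDerivAt
    have d3 := (h1.df.differentiableAt (h1.op.mem_nhds c1)).hasDerivAt
    have d4 : HasDerivAt (Φ2 ∘ ι) (deriv Φ2 (ι y) * deriv ι y) y := d2.comp y d1
    have d5 : Φ2 ∘ ι =ᶠ[𝓝 y] Φ1 := by
      filter_upwards [hO.mem_nhds hy] with v hv
      exact (hm v hv).2.2.1
    have d6 := (d4.congr_of_eventuallyEq d5.symm).unique d3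
    have e1 := a2 y c1
    have e2 := b2 _ c2
    rw [c3, e1] at e2
    field_simp
    linear_combination -e2 - X y * d6

/-- inverse branches -/
theorem xi_inv {O O' : Set ℂ} {Φ Γ : ℂ → ℂ} (h : XI X O Φ) (hO : IsOpen O') (hΓ : DifferentiableOn ℂ Γ O')
    (hm : ∀ y ∈ O', Γ y ∈ O ∧ Φ (Γ y) = y) : XI X O' Γ := by
  refine xi_div (xi_id X) h hO hΓ fun y hy => ⟨mem_univ y, (hm y hy).1, (hm y hy).2, fun h0 => ?_⟩
  have d1 := (hΓ.differentiableAt (hO.mem_nhds hy)).hasDerivAt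
  have d2 := (h.df.differentiableAt (h.op.mem_nhds (hm y hy).1)).hasDerivAt
  have d4 : HasDerivAt (Φ ∘ Γ) (deriv Φ (Γ y) * deriv Γ y) y := d2.comp y d1
  have d5 : HasDerivAt (Φ ∘ Γ) 1 y := by
    refine (hasDerivAt_id y).congr_of_eventuallyEq ?_
    filter_upwards [hO.mem_nhds hy] with v hv
    exact (hm v hv).2
  have d6 := d4.unique d5
  rw [h0, zero_mul] at d6
  exact zero_ne_one d6

private theorem ch_der {O : Set ℂ} (hO : IsOpen O) {Φ : ℂ → ℂ} (hΦ : DifferentiableOn ℂ Φ O) {x R x' R' u : ℂ}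
    (hu : x + R * u ∈ O) : HasDerivAt (ch Φ x R x' R') (deriv Φ (x + R * u) * R / R') u := by
  have d1 : HasDerivAt (fun u : ℂ => x + R * u) R u := by
    simpa using ((hasDerivAt_id u).const_mul R).const_add x
  have d2 := (hΦ.differentiableAt (hO.mem_nhds hu)).hasDerivAt
  have d3 : HasDerivAt (Φ ∘ fun u : ℂ => x + R * u) (deriv Φ (x + R * u) * R) u := HasDerivAt.comp u d2 d1
  exact (d3.sub_const x').div_const R'

private theorem ch_open {O : Set ℂ} (hO : IsOpen O) (x R : ℂ) : IsOpen {u : ℂ | x + R * u ∈ O} :=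
  hO.preimage (by fun_prop : Continuous fun u : ℂ => x + R * u)

variable {𝒰 : Ultrafilter ℕ} {S S' : Set ℂ} {A A' F : ℂ → ℂ} {Φt : ℕ → ℂ → ℂ} {x R x' R' ν : ℕ → ℂ}

theorem ch_hn (hI : ∀ K ⊆ S, IsCompact K → ∀ᶠ n in (𝒰 : Filter ℕ), ∃ O, XI X O (Φt n) ∧ ∀ u ∈ K, x n + R n * u ∈ O) :
    HN 𝒰 (fun n => ch (Φt n) (x n) (R n) (x' n) (R' n)) S := by
  intro K hK hKc
  filter_upwards [hI K hK hKc] with n hn
  obtain ⟨O, h1, h2⟩ := hn
  exact ⟨{u : ℂ | x n + R n * u ∈ O}, ch_open h1.op _ _, h2,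
    fun u hu => (ch_der h1.op h1.df hu).differentiableAt.differentiableWithinAt⟩

/-- transport -/
theorem fl_tr (hS : IsOpen S) (hS' : IsOpen S') (hR : ∀ n, R n ≠ 0) (hR' : ∀ n, R' n ≠ 0)
    (hI : ∀ K ⊆ S, IsCompact K → ∀ᶠ n in (𝒰 : Filter ℕ), ∃ O, XI X O (Φt n) ∧ ∀ u ∈ K, x n + R n * u ∈ O)
    (hc : TendstoLocallyUniformlyOn (fun n => ch (Φt n) (x n) (R n) (x' n) (R' n)) F (𝒰 : Filter ℕ) S)
    (hF : MapsTo F S S') (hA' : ContinuousOn A' S') (h : HL 𝒰 (Yn X x' R' ν) S' A') :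
    HL 𝒰 (fun n u => deriv (ch (Φt n) (x n) (R n) (x' n) (R' n)) u * Yn X x R ν n u) S (fun u => A' (F u)) := by
  refine hl_add (hl_comp hS hS' (ch_hn hI) hc hF hA' h) fun K hK hKc => ?_
  filter_upwards [hI K hK hKc] with n hn
  obtain ⟨O, h1, h2⟩ := hn
  obtain ⟨g, g1, g2⟩ := h1.eq
  refine ⟨{u : ℂ | x n + R n * u ∈ O}, fun u => -(ν n * g (x n + R n * u) / R' n), ch_open h1.op _ _, h2, ?_, fun u hu => ?_⟩
  · refine DifferentiableOn.neg (DifferentiableOn.div_const (DifferentiableOn.const_mul ?_ _) _)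
    exact g1.comp (by fun_prop : DifferentiableOn ℂ (fun u : ℂ => x n + R n * u) _) fun u hu => hu
  · have e1 := g2 _ (h2 u hu)
    have e2 := (ch_der h1.op h1.df (x' := x' n) (R' := R' n) (h2 u hu)).deriv
    have e3 : x' n + R' n * ch (Φt n) (x n) (R n) (x' n) (R' n) u = Φt n (x n + R n * u) := by
      rw [ch, mul_div_cancel₀ _ (hR' n)]
      ring
    show deriv (ch (Φt n) (x n) (R n) (x' n) (R' n)) u * (ν n * (X (x n + R n * u) / R n)) =
      ν n * (X (x' n + R' n * ch (Φt n) (x n) (R n) (x' n) (R' n) u) / R' n) + -(ν n * g (x n + R n * u) / R' n)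
    rw [e3, e2, e1]
    have := hR n
    have := hR' n
    field_simp
    ring

/-- both sides -/
theorem fl_two (hS : IsOpen S) (hS' : IsOpen S') (hR : ∀ n, R n ≠ 0) (hR' : ∀ n, R' n ≠ 0)
    (hI : ∀ K ⊆ S, IsCompact K → ∀ᶠ n in (𝒰 : Filter ℕ), ∃ O, XI X O (Φt n) ∧ ∀ u ∈ K, x n + R n * u ∈ O)
    (hc : TendstoLocallyUniformlyOn (fun n => ch (Φt n) (x n) (R n) (x' n) (R' n)) F (𝒰 : Filter ℕ) S)
    (hF : MapsTo F S S') (hA : ContinuousOn A S) (hA' : ContinuousOn A' S') (h : HL 𝒰 (Yn X x R ν) S A)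
    (h' : HL 𝒰 (Yn X x' R' ν) S' A') : DifferentiableOn ℂ (fun u => deriv F u * A u - A' (F u)) S := by
  have h1 := ch_hn (x' := x') (R' := R') hI
  have h2 := hn_deriv hS h1 hc
  exact hl_hol hS (hl_mul hS (hn_dn h1) h2 hA h) (fl_tr hS hS' hR hR' hI hc hF hA' h')

/-- pull back by a map without critical points -/
theorem fl_pull (hS : IsOpen S) (hS' : IsOpen S') (hR : ∀ n, R n ≠ 0) (hR' : ∀ n, R' n ≠ 0)
    (hI : ∀ K ⊆ S, IsCompact K → ∀ᶠ n in (𝒰 : Filter ℕ), ∃ O, XI X O (Φt n) ∧ ∀ u ∈ K, x n + R n * u ∈ O)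
    (hc : TendstoLocallyUniformlyOn (fun n => ch (Φt n) (x n) (R n) (x' n) (R' n)) F (𝒰 : Filter ℕ) S)
    (hF : MapsTo F S S') (hF0 : ∀ u ∈ S, deriv F u ≠ 0) (hA' : ContinuousOn A' S') (h' : HL 𝒰 (Yn X x' R' ν) S' A') :
    HL 𝒰 (Yn X x R ν) S (fun u => A' (F u) / deriv F u) := by
  have h1 := ch_hn (x' := x') (R' := R') hI
  have h2 := hn_deriv hS h1 hc
  have h3 := hn_diff hS h1 hc
  exact hl_div hS (hn_dn h1) h2 hF0 (hA'.comp h3.continuousOn hF) (fl_tr hS hS' hR hR' hI hc hF hA' h')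

/-- change of the factor -/
theorem fl_nu (hS : IsOpen S) (hA : ContinuousOn A S) {ν' l : ℕ → ℂ} {lam : ℂ} (hl : Tendsto l (𝒰 : Filter ℕ) (𝓝 lam))
    (hν : ∀ᶠ n in (𝒰 : Filter ℕ), ν' n = l n * ν n) (h : HL 𝒰 (Yn X x R ν) S A) :
    HL 𝒰 (Yn X x R ν') S (fun u => lam * A u) := by
  have h1 : TendstoLocallyUniformlyOn (fun n (_ : ℂ) => l n) (fun _ => lam) (𝒰 : Filter ℕ) S := by
    intro V hV u _
    refine ⟨univ, Filter.univ_mem, ?_⟩
    filter_upwards [hl.eventually (UniformSpace.ball_mem_nhds lam hV)] with n hn y _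
    exact hn
  have h2 : HN 𝒰 (fun n (_ : ℂ) => l n) S := fun K _ _ => Eventually.of_forall fun n =>
    ⟨univ, isOpen_univ, subset_univ _, differentiableOn_const _⟩
  refine hl_add (hl_mul hS h2 h1 hA h) fun K _ _ => ?_
  filter_upwards [hν] with n hn
  refine ⟨univ, fun _ => 0, isOpen_univ, subset_univ _, differentiableOn_const 0, fun u _ => ?_⟩
  rw [Yn, Yn, hn]
  ring

/-- the limit of the line field at typical points -/
theorem mu_lim (hX : FX f U J E δ X hh μ b0) (𝒰 : Ultrafilter ℕ) {z : ℕ → ℂ} (hz : ∀ n, z n ∈ E) :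
    ∃ b : ℂ, b ≠ 0 ∧ Tendsto (fun n => μ (z n)) (𝒰 : Filter ℕ) (𝓝 b) := by
  obtain ⟨b, -, hb⟩ : ∃ b ∈ closedBall (0 : ℂ) 1, Tendsto (fun n => μ (z n)) (𝒰 : Filter ℕ) (𝓝 b) := by
    have h0 : closedBall (0 : ℂ) 1 ∈ 𝒰.map fun n => μ (z n) := by
      rw [Ultrafilter.mem_map]
      refine Filter.univ_mem' fun n => ?_
      show μ (z n) ∈ closedBall (0 : ℂ) 1
      rw [mem_closedBall_zero_iff]
      exact (hX.lb _ (hz n)).2
    exact (isCompact_closedBall (0 : ℂ) 1).ultrafilter_le_nhds' (𝒰.map fun n => μ (z n)) h0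
  refine ⟨b, ?_, hb⟩
  have h1 : b0 ≤ ‖b‖ := ge_of_tendsto hb.norm (Eventually.of_forall fun n => (hX.lb _ (hz n)).1)
  have h2 := hX.hb
  intro h3
  rw [h3, norm_zero] at h1
  linarith

/-- the field at typical points -/
theorem fl_typ (hX : FX f U J E δ X hh μ b0) {z σ : ℕ → ℂ} (hz : ∀ n, z n ∈ E) (hσ : ∀ n, σ n ≠ 0)
    (ht : Tendsto σ (𝒰 : Filter ℕ) (𝓝 0)) {b : ℂ} (hb : Tendsto (fun n => μ (z n)) (𝒰 : Filter ℕ) (𝓝 b)) :
    HL 𝒰 (Yn X z σ fun n => σ n / (starRingEnd ℂ) (σ n)) univ (fun s => b * (starRingEnd ℂ) s) := by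
  intro K _ hKc ε hε
  obtain ⟨L, hL, hKL⟩ : ∃ L : ℝ, 0 < L ∧ K ⊆ ball 0 L := by
    obtain ⟨L, hL⟩ := hKc.isBounded.subset_ball (0 : ℂ)
    exact ⟨max L 1, by positivity, hL.trans (ball_subset_ball (le_max_left _ _))⟩
  obtain ⟨ρ', hρ', hT⟩ := hX.T (ε / 2 / L) (by positivity)
  have hsm : ∀ᶠ n in (𝒰 : Filter ℕ), ‖σ n‖ * L < ρ' := by
    have h1 : Tendsto (fun n => ‖σ n‖ * L) (𝒰 : Filter ℕ) (𝓝 0) := by
      have h2 := ht.norm.mul_const L
      rwa [norm_zero, zero_mul] at h2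
    exact h1.eventually_lt_const hρ'
  have hbs : ∀ᶠ n in (𝒰 : Filter ℕ), ‖μ (z n) - b‖ < ε / 2 / L := by
    have h1 := (hb.sub_const b).norm
    rw [sub_self, norm_zero] at h1
    exact h1.eventually_lt_const (by positivity)
  filter_upwards [hsm, hbs] with n hn hn2
  have hσn : 0 < ‖σ n‖ := norm_pos_iff.2 (hσ n)
  have hcs : (starRingEnd ℂ) (σ n) ≠ 0 := (map_ne_zero _).2 (hσ n)
  obtain ⟨H, hH1, hH2⟩ := hT (z n) (hz n) (‖σ n‖ * L) (by positivity) hn
  have hin : ∀ s ∈ ball (0 : ℂ) L, z n + σ n * s ∈ ball (z n) (‖σ n‖ * L) := by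
    intro s hs
    rw [mem_ball, dist_eq_norm, add_sub_cancel_left, norm_mul]
    exact mul_lt_mul_of_pos_left (mem_ball_zero_iff.1 hs) hσn
  refine ⟨ball 0 L, fun s => H (z n + σ n * s) / (starRingEnd ℂ) (σ n), isOpen_ball, hKL, ?_, fun s hs => ?_⟩
  · exact (hH1.comp (by fun_prop : DifferentiableOn ℂ (fun s : ℂ => z n + σ n * s) _) hin).div_const _
  · have hs' := hKL hs
    have e1 := hH2 _ (hin s hs')
    rw [add_sub_cancel_left, map_mul] at e1
    have e2 : ‖s‖ ≤ L := (mem_ball_zero_iff.1 hs').le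
    have key : Yn X z σ (fun n => σ n / (starRingEnd ℂ) (σ n)) n s - H (z n + σ n * s) / (starRingEnd ℂ) (σ n) -
        b * (starRingEnd ℂ) s = (X (z n + σ n * s) - μ (z n) * ((starRingEnd ℂ) (σ n) * (starRingEnd ℂ) s) -
          H (z n + σ n * s)) / (starRingEnd ℂ) (σ n) + (μ (z n) - b) * (starRingEnd ℂ) s := by
      rw [Yn]
      have := hσ n
      field_simp
      ring
    rw [key]
    calc _ ≤ ‖(X (z n + σ n * s) - μ (z n) * ((starRingEnd ℂ) (σ n) * (starRingEnd ℂ) s) -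
          H (z n + σ n * s)) / (starRingEnd ℂ) (σ n)‖ + ‖(μ (z n) - b) * (starRingEnd ℂ) s‖ := norm_add_le _ _
      _ = ‖X (z n + σ n * s) - μ (z n) * ((starRingEnd ℂ) (σ n) * (starRingEnd ℂ) s) -
          H (z n + σ n * s)‖ / ‖σ n‖ + ‖μ (z n) - b‖ * ‖s‖ := by
          rw [norm_div, norm_mul, Complex.norm_conj, Complex.norm_conj]
      _ ≤ ε / 2 / L * (‖σ n‖ * L) / ‖σ n‖ + ε / 2 / L * L :=
          add_le_add (div_le_div_of_nonneg_right e1 hσn.le) (mul_le_mul hn2.le e2 (norm_nonneg _) (by positivity))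
      _ = ε := by
          field_simp
          norm_num

/-- the field in frames -/
theorem fl_fr (h : PS f U J P Cr δ η ρ) (hX : FX f U J E δ X hh μ b0) {z σ : ℕ → ℂ} {k : ℕ → ℕ} (hz : ∀ n, z n ∈ E)
    (hR : ∀ n, R n ≠ 0) (hσ : ∀ n, σ n ≠ 0) (ht : Tendsto σ (𝒰 : Filter ℕ) (𝓝 0)) {b : ℂ}
    (hb : Tendsto (fun n => μ (z n)) (𝒰 : Filter ℕ) (𝓝 b)) (hS : IsOpen S) {G : ℕ → ℂ → ℂ} {g : ℂ → ℂ}
    (hG : ∀ K ⊆ S, IsCompact K → ∀ᶠ n in (𝒰 : Filter ℕ), ∃ O : Set ℂ, IsOpen O ∧ K ⊆ O ∧ DifferentiableOn ℂ (G n) O ∧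
      ∀ u ∈ O, G n u ∈ Dn f U J δ z k σ n ∧ Fn f z k x R σ n (G n u) = u)
    (hc : TendstoLocallyUniformlyOn G g (𝒰 : Filter ℕ) S) (hg : ∀ u ∈ S, deriv g u ≠ 0) :
    HL 𝒰 (Yn X x R fun n => σ n / (starRingEnd ℂ) (σ n)) S (fun u => b * ((starRingEnd ℂ) (g u) / deriv g u)) := by
  have hI : ∀ K ⊆ S, IsCompact K → ∀ᶠ n in (𝒰 : Filter ℕ), ∃ O, XI X O (fun y => z n + σ n * G n ((y - x n) / R n)) ∧
      ∀ u ∈ K, x n + R n * u ∈ O := by
    intro K hK hKc
    filter_upwards [hG K hK hKc] with n hn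
    obtain ⟨O, h1, h2, h3, h4⟩ := hn
    have hR' := hR n
    refine ⟨{y : ℂ | (y - x n) / R n ∈ O}, ?_, fun u hu => ?_⟩
    · refine xi_inv (xi_it h hX (k n)) (h1.preimage (by fun_prop : Continuous fun y : ℂ => (y - x n) / R n)) ?_ fun y hy => ?_
      · refine (DifferentiableOn.const_mul ?_ _).const_add _
        exact h3.comp (by fun_prop : DifferentiableOn ℂ (fun y : ℂ => (y - x n) / R n) _) fun y hy => hy
      · obtain ⟨h5, h6⟩ := h4 _ hy
        refine ⟨h5, ?_⟩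
        have h7 : (f^[k n] (z n + σ n * G n ((y - x n) / R n)) - x n) / R n = (y - x n) / R n := h6
        rw [div_left_inj' hR'] at h7
        linear_combination h7
    · show (x n + R n * u - x n) / R n ∈ O
      rw [add_sub_cancel_left, mul_div_cancel_left₀ _ hR']
      exact h2 hu
  have hce : ∀ n, ch (fun y => z n + σ n * G n ((y - x n) / R n)) (x n) (R n) (z n) (σ n) = G n := by
    intro n
    funext u
    have := hσ n
    have := hR n
    rw [ch]
    simp only [add_sub_cancel_left]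
    rw [mul_div_cancel_left₀ _ (hR n), mul_div_cancel_left₀ _ (hσ n)]
  have hc' : TendstoLocallyUniformlyOn (fun n => ch (fun y => z n + σ n * G n ((y - x n) / R n)) (x n) (R n) (z n) (σ n)) g
      (𝒰 : Filter ℕ) S := by
    simp only [hce]
    exact hc
  have h1 := fl_pull hS isOpen_univ hR hσ hI hc' (mapsTo_univ g S) hg
    (by fun_prop : ContinuousOn (fun s : ℂ => b * (starRingEnd ℂ) s) univ) (fl_typ hX hz hσ ht hb)
  refine hl_congr h1 fun u _ => ?_
  ring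

/-- the antiholomorphic derivative of a combination -/
private theorem gal_bar {g g' p p' : ℂ → ℂ} {u : ℂ} (hg : DifferentiableAt ℂ g u) (hg' : DifferentiableAt ℂ g' u)
    (hp : DifferentiableAt ℂ p u) (hp' : DifferentiableAt ℂ p' u)
    (hA : DifferentiableAt ℂ (fun v => (starRingEnd ℂ) (g v) * p v - (starRingEnd ℂ) (g' v) * p' v) u) :
    (starRingEnd ℂ) (deriv g u) * p u = (starRingEnd ℂ) (deriv g' u) * p' u := by
  have hdir : ∀ F : ℂ → ℂ, DifferentiableAt ℂ F u → ∀ v : ℂ,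
      HasDerivAt (fun t : ℝ => F (u + t * v)) (deriv F u * v) 0 := by
    intro F hF v
    have h1 : HasDerivAt (fun ζ : ℂ => u + ζ * v) v ((0 : ℝ) : ℂ) := by
      have := ((hasDerivAt_id ((0 : ℝ) : ℂ)).mul_const v).const_add u
      simpa using this
    have h2 : HasDerivAt F (deriv F u) ((fun ζ : ℂ => u + ζ * v) ((0 : ℝ) : ℂ)) := by
      have h3 : (fun ζ : ℂ => u + ζ * v) ((0 : ℝ) : ℂ) = u := by simp
      rw [h3]
      exact hF.hasDerivAt
    have h4 : HasDerivAt (F ∘ fun ζ : ℂ => u + ζ * v) (deriv F u * v) ((0 : ℝ) : ℂ) := HasDerivAt.comp _ h2 h1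
    exact h4.comp_ofReal
  have hv : ∀ v : ℂ, deriv (fun v => (starRingEnd ℂ) (g v) * p v - (starRingEnd ℂ) (g' v) * p' v) u * v =
      (star (deriv g u * v) * p u + (starRingEnd ℂ) (g u) * (deriv p u * v)) -
        (star (deriv g' u * v) * p' u + (starRingEnd ℂ) (g' u) * (deriv p' u * v)) := by
    intro v
    have h1 := hdir _ hA v
    have h2 := (((hdir g hg v).star).mul (hdir p hp v)).sub (((hdir g' hg' v).star).mul (hdir p' hp' v))
    have h3 := h1.unique h2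
    rw [h3]
    simp
  have h1 := hv 1
  have hi := hv Complex.I
  simp only [mul_one, star_mul', Complex.star_def, Complex.conj_I] at h1 hi
  have h2 : (2 * Complex.I) * ((starRingEnd ℂ) (deriv g u) * p u - (starRingEnd ℂ) (deriv g' u) * p' u) = 0 := by
    linear_combination hi - Complex.I * h1
  have h3 : (2 : ℂ) * Complex.I ≠ 0 := mul_ne_zero two_ne_zero Complex.I_ne_zero
  exact sub_eq_zero.1 ((mul_eq_zero.1 h2).resolve_left h3)

/-- the relation of the limits -/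
private theorem gal_lim {g g' : ℂ → ℂ} {w : ℂ} {r : ℝ} (hr : 0 < r) (hg : DifferentiableOn ℂ g (ball w r))
    (hg' : DifferentiableOn ℂ g' (ball w r)) (h0 : deriv g w ≠ 0) (h0' : deriv g' w ≠ 0)
    (hc : ∀ u ∈ ball w r, (starRingEnd ℂ) (deriv g u) * deriv g' u = (starRingEnd ℂ) (deriv g' u) * deriv g u) :
    ∃ (t : ℝ) (c : ℂ), t ≠ 0 ∧ ∀ u ∈ ball w r, g' u = t * g u + c := by
  have hd : DifferentiableOn ℂ (deriv g) (ball w r) := hg.deriv isOpen_ball
  have hd' : DifferentiableOn ℂ (deriv g') (ball w r) := hg'.deriv isOpen_ball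
  have hw : w ∈ ball w r := mem_ball_self hr
  have hcont : ContinuousAt (deriv g) w := (hd.differentiableAt (isOpen_ball.mem_nhds hw)).continuousAt
  obtain ⟨s, hs, hs2⟩ := Metric.mem_nhds_iff.1 (hcont.eventually_ne h0)
  obtain ⟨s', hs', hss, hsr⟩ : ∃ s', 0 < s' ∧ s' ≤ s ∧ s' ≤ r := ⟨min s r, lt_min hs hr, min_le_left _ _, min_le_right _ _⟩
  have hne : ∀ u ∈ ball w s', deriv g u ≠ 0 := fun u hu => hs2 (ball_subset_ball hss hu)
  have hq : DifferentiableOn ℂ (fun u => deriv g' u / deriv g u) (ball w s') :=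
    (hd'.mono (ball_subset_ball hsr)).div (hd.mono (ball_subset_ball hsr)) hne
  have hreal : ∀ u ∈ ball w s', (deriv g' u / deriv g u).im = 0 := by
    intro u hu
    rw [← Complex.conj_eq_iff_im, map_div₀, div_eq_div_iff ((map_ne_zero _).2 (hne u hu)) (hne u hu)]
    rw [← hc u (ball_subset_ball hsr hu)]
    ring
  obtain ⟨q, hq2⟩ := (hq.analyticOnNhd isOpen_ball).eq_const_of_im_eq_const (c₀ := 0) hreal isOpen_ball
    ((convex_ball w s').isConnected ⟨w, mem_ball_self hs'⟩)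
  have hqw := hq2 w (mem_ball_self hs')
  have hq0 : q ≠ 0 := by
    rw [← hqw]
    exact div_ne_zero h0' h0
  have hqr : ((q.re : ℝ) : ℂ) = q := by
    rw [← Complex.conj_eq_iff_re, Complex.conj_eq_iff_im, ← hqw]
    exact hreal w (mem_ball_self hs')
  have hE : EqOn (deriv g') (fun u => q * deriv g u) (ball w r) := by
    refine (hd'.analyticOnNhd isOpen_ball).eqOn_of_preconnected_of_eventuallyEq
      ((hd.const_mul q).analyticOnNhd isOpen_ball) (convex_ball w r).isPreconnected hw ?_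
    filter_upwards [ball_mem_nhds w hs'] with u hu
    have := hq2 u hu
    rw [div_eq_iff (hne u hu)] at this
    exact this
  have hF : DifferentiableOn ℂ (fun u => g' u - q * g u) (ball w r) := hg'.sub (hg.const_mul q)
  have hF0 : (ball w r).EqOn (deriv fun u => g' u - q * g u) 0 := by
    intro u hu
    have a1 := hg.differentiableAt (isOpen_ball.mem_nhds hu)
    have a2 := hg'.differentiableAt (isOpen_ball.mem_nhds hu)
    rw [deriv_fun_sub a2 (a1.const_mul q), deriv_const_mul _ a1, hE hu]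
    exact sub_self _
  refine ⟨q.re, g' w - q * g w, ?_, fun u hu => ?_⟩
  · intro h
    apply hq0
    rw [← hqr, h]
    rfl
  · have h5 := isOpen_ball.is_const_of_deriv_eq_zero (convex_ball w r).isPreconnected hF hF0 hu hw
    rw [hqr]
    have h6 : g' u - q * g u = g' w - q * g w := h5
    linear_combination h6

/-- THE GALOIS LEMMA for two descriptions of the field over a transport. In particular `F` has no critical points. -/
theorem fl_gal (hS : IsOpen S) (hSc : IsPreconnected S) (hS' : IsOpen S') (hR : ∀ n, R n ≠ 0) (hR' : ∀ n, R' n ≠ 0)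
    (hI : ∀ K ⊆ S, IsCompact K → ∀ᶠ n in (𝒰 : Filter ℕ), ∃ O, XI X O (Φt n) ∧ ∀ u ∈ K, x n + R n * u ∈ O)
    (hc : TendstoLocallyUniformlyOn (fun n => ch (Φt n) (x n) (R n) (x' n) (R' n)) F (𝒰 : Filter ℕ) S)
    (hF : MapsTo F S S') {g g' : ℂ → ℂ} (hg : DifferentiableOn ℂ g S) (hg0 : ∀ u ∈ S, deriv g u ≠ 0)
    (hg' : DifferentiableOn ℂ g' S') (hg0' : ∀ u ∈ S', deriv g' u ≠ 0) {b b' : ℂ} (hb : b ≠ 0) (hb' : b' ≠ 0)
    (h : HL 𝒰 (Yn X x R ν) S fun u => b * ((starRingEnd ℂ) (g u) / deriv g u))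
    (h' : HL 𝒰 (Yn X x' R' ν) S' fun u => b' * ((starRingEnd ℂ) (g' u) / deriv g' u))
    {u0 : ℂ} (hu0 : u0 ∈ S) (hF0 : deriv F u0 ≠ 0) :
    (∃ a c : ℂ, a ≠ 0 ∧ (b = b' → a.im = 0) ∧ ∀ u ∈ S, g' (F u) = a * g u + c) ∧ ∀ u ∈ S, deriv F u ≠ 0 := by
  have hFd : DifferentiableOn ℂ F S := hn_diff hS (ch_hn (x' := x') (R' := R') hI) hc
  have hFd' : DifferentiableOn ℂ (deriv F) S := hFd.deriv hS
  have hgd : DifferentiableOn ℂ (deriv g) S := hg.deriv hS
  have hgd' : DifferentiableOn ℂ (deriv g') S' := hg'.deriv hS'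
  have hA : ContinuousOn (fun u => b * ((starRingEnd ℂ) (g u) / deriv g u)) S :=
    continuousOn_const.mul ((Complex.continuous_conj.comp_continuousOn hg.continuousOn).div hgd.continuousOn hg0)
  have hA' : ContinuousOn (fun u => b' * ((starRingEnd ℂ) (g' u) / deriv g' u)) S' :=
    continuousOn_const.mul ((Complex.continuous_conj.comp_continuousOn hg'.continuousOn).div hgd'.continuousOn hg0')
  have h1 := fl_two hS hS' hR hR' hI hc hF hA hA' h h'
  -- the composition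
  have hG2 : DifferentiableOn ℂ (fun u => g' (F u)) S := hg'.comp hFd hF
  have hG2d : ∀ u ∈ S, deriv (fun u => g' (F u)) u = deriv g' (F u) * deriv F u := by
    intro u hu
    exact ((hg'.differentiableAt (hS'.mem_nhds (hF hu))).hasDerivAt.comp u
      (hFd.differentiableAt (hS.mem_nhds hu)).hasDerivAt).deriv
  have hrel : ∀ u ∈ S, (starRingEnd ℂ) (deriv g u) * (b * deriv (fun u => g' (F u)) u) =
      (starRingEnd ℂ) (deriv (fun u => g' (F u)) u) * (b' * deriv g u) := by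
    intro u hu
    have hn := hS.mem_nhds hu
    have h2 := gal_bar (g := g) (g' := fun u => g' (F u)) (p := fun u => b * deriv F u / deriv g u)
      (p' := fun u => b' / deriv g' (F u)) (hg.differentiableAt hn) (hG2.differentiableAt hn)
      (((hFd'.const_mul b).div hgd hg0).differentiableAt hn)
      (((differentiableOn_const b').div (hgd'.comp hFd hF) fun v hv => hg0' _ (hF hv)).differentiableAt hn)
      ((h1.differentiableAt hn).congr_of_eventuallyEq (Eventually.of_forall fun v => by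
        show (starRingEnd ℂ) (g v) * (b * deriv F v / deriv g v) - (starRingEnd ℂ) (g' (F v)) * (b' / deriv g' (F v)) =
          deriv F v * (b * ((starRingEnd ℂ) (g v) / deriv g v)) - b' * ((starRingEnd ℂ) (g' (F v)) / deriv g' (F v))
        ring))
    have n1 := hg0 u hu
    have n2 := hg0' _ (hF hu)
    rw [hG2d u hu] at h2 ⊢
    have h3 : (starRingEnd ℂ) (deriv g u) * (b * deriv F u) * deriv g' (F u) =
        (starRingEnd ℂ) (deriv g' (F u) * deriv F u) * b' * deriv g u := by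
      have h4 : (starRingEnd ℂ) (deriv g u) * (b * deriv F u / deriv g u) * (deriv g u * deriv g' (F u)) =
          (starRingEnd ℂ) (deriv g' (F u) * deriv F u) * (b' / deriv g' (F u)) * (deriv g u * deriv g' (F u)) := by
        rw [h2]
      calc _ = (starRingEnd ℂ) (deriv g u) * (b * deriv F u / deriv g u) * (deriv g u * deriv g' (F u)) := by
            field_simp
        _ = (starRingEnd ℂ) (deriv g' (F u) * deriv F u) * (b' / deriv g' (F u)) * (deriv g u * deriv g' (F u)) := h4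
        _ = _ := by
            field_simp
    linear_combination h3
  have hd0 : deriv (fun u => g' (F u)) u0 ≠ 0 := by
    rw [hG2d u0 hu0]
    exact mul_ne_zero (hg0' _ (hF hu0)) hF0
  have hbb : ‖b‖ = ‖b'‖ := by
    have h2 := congrArg norm (hrel u0 hu0)
    rw [norm_mul, norm_mul, norm_mul, norm_mul, Complex.norm_conj, Complex.norm_conj] at h2
    have n1 : 0 < ‖deriv g u0‖ := norm_pos_iff.2 (hg0 u0 hu0)
    have n2 : 0 < ‖deriv (fun u => g' (F u)) u0‖ := norm_pos_iff.2 hd0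
    have h3 : (‖deriv g u0‖ * ‖deriv (fun u => g' (F u)) u0‖) * ‖b‖ =
        (‖deriv g u0‖ * ‖deriv (fun u => g' (F u)) u0‖) * ‖b'‖ := by linear_combination h2
    exact mul_left_cancel₀ (mul_pos n1 n2).ne' h3
  obtain ⟨e, he1, he2, he3⟩ : ∃ e : ℂ, (starRingEnd ℂ) e * e = 1 ∧ b' = b * e ^ 2 ∧ (b = b' → e = 1) := by
    by_cases hq : b = b'
    · exact ⟨1, by simp, by rw [hq]; ring, fun _ => rfl⟩
    · obtain ⟨e, he⟩ := IsAlgClosed.exists_pow_nat_eq (b' / b) (n := 2) two_pos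
      refine ⟨e, ?_, by rw [he]; field_simp, fun h => absurd h hq⟩
      have h2 : ‖e‖ ^ 2 = 1 := by
        rw [← norm_pow, he, norm_div, hbb, div_self]
        exact (norm_pos_iff.2 hb').ne'
      rw [Complex.conj_mul']
      exact_mod_cast h2
  have hee : e ≠ 0 := by
    rintro rfl
    simp at he1
  obtain ⟨r, hr, hrS⟩ := Metric.isOpen_iff.1 hS u0 hu0
  have hG3 : DifferentiableOn ℂ (fun u => e⁻¹ * g' (F u)) (ball u0 r) := (hG2.mono hrS).const_mul _
  have hG3d : ∀ u ∈ ball u0 r, deriv (fun u => e⁻¹ * g' (F u)) u = e⁻¹ * deriv (fun u => g' (F u)) u := by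
    intro u hu
    exact deriv_const_mul _ (hG2.differentiableAt (hS.mem_nhds (hrS hu)))
  have hce : (starRingEnd ℂ) e = e⁻¹ := eq_inv_of_mul_eq_one_left he1
  obtain ⟨t, c, ht, htc⟩ := gal_lim hr (hg.mono hrS) hG3 (hg0 u0 hu0)
    (by rw [hG3d u0 (mem_ball_self hr)]; exact mul_ne_zero (inv_ne_zero hee) hd0) (by
      intro u hu
      rw [hG3d u hu, map_mul, map_inv₀, hce, inv_inv]
      have h2 := hrel u (hrS hu)
      rw [he2] at h2
      have h3 : b * ((starRingEnd ℂ) (deriv g u) * deriv (fun u => g' (F u)) u) =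
          b * (e ^ 2 * ((starRingEnd ℂ) (deriv (fun u => g' (F u)) u) * deriv g u)) := by linear_combination h2
      have h4 := mul_left_cancel₀ hb h3
      field_simp
      linear_combination h4)
  have hEq : EqOn (fun u => g' (F u)) (fun u => (e * t) * g u + e * c) S := by
    refine (hG2.analyticOnNhd hS).eqOn_of_preconnected_of_eventuallyEq
      (((hg.const_mul (e * t)).add_const (e * c)).analyticOnNhd hS) hSc hu0 ?_
    filter_upwards [ball_mem_nhds u0 hr] with u hu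
    have h2 := htc u hu
    rw [inv_mul_eq_iff_eq_mul₀ hee] at h2
    show g' (F u) = (e * t) * g u + e * c
    rw [h2]
    ring
  have hat : e * (t : ℂ) ≠ 0 := mul_ne_zero hee (by exact_mod_cast ht)
  refine ⟨⟨e * t, e * c, hat, fun hq => ?_, hEq⟩, fun u hu h0 => ?_⟩
  · rw [he3 hq, one_mul]
    exact Complex.ofReal_im t
  · have h2 : deriv (fun u => g' (F u)) u = deriv (fun u => (e * t) * g u + e * c) u :=
      (Filter.eventuallyEq_of_mem (hS.mem_nhds hu) hEq).deriv_eq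
    have h3 : deriv (fun u => (e * t) * g u + e * c) u = (e * t) * deriv g u :=
      (((hg.differentiableAt (hS.mem_nhds hu)).hasDerivAt.const_mul (e * t)).add_const (e * c)).deriv
    rw [hG2d u hu, h3, h0, mul_zero] at h2
    exact mul_ne_zero hat (hg0 u hu) h2.symm

end Pool.Agent.H41.XF
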