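import Pool.Agent.H43.UB.PHM
import Pool.Agent.H43.UB.UH
import Pool.Agent.H64.XL.Defs

/-!
# ROB => DIM, chapter X: branches at good points (copy of H43/UB/GBR for limit systems without gap discs)

`gb`. `hoff`: `closedBall w ρ` is compact and disjoint from `Ph`, also a slightly larger `closedBall w ρ'` (`ρ < ρ'`: `Ph` is closed, `infDist`/compactness: `IsCompact.exists_cthickening_subset_open` or `disjoint` of a compact and a closed set at positive distance). `ph_off`: `P n ∩ closedBall w ρ' = ∅` for almost all `n`. `hs.2`: `M, z n` with `z n ∈ D n`, `z n → s`, `w n := F n (z n) → w`. For almost all `n`: `w n ∈ ball w ρ`. `h.lift` with `S = ball w ρ'`, `H = id`, `q = w n`, point `z n`: `G n` on `ball w ρ'` with `G n (w n) = z n`, `F n (G n u) = u`; so `G n` is injective, `deriv (G n) (w n) = 1 / deriv (F n) (z n)` has modulus at most `M` and at least `1 / M`.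
BOUNDED: `distort` (H80/AJ/Distort) on chains of balls: for every `u ∈ ball w ρ'` there is a ball and a bound (simplest: the set of the points of `ball w ρ'` near which `G n` and `deriv (G n)` are bounded (for almost all `n`) and `deriv (G n)` bounded below is open and closed: distortion on `ball u (2 t)` with `t` a fixed part of the distance to the circle; or: induction along the segment from `w` to `u`). Then `um`: `G n → g` locally uniformly on `ball w ρ'`.
`g w = s` (`G n (w n) = z n`, locally uniform convergence), `deriv g w ≠ 0` (`TendstoLocallyUniformlyOn.deriv`, lower bound at `w n → w`), `uh_inj`: injective.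
`gd_g`: `Gd u (g u)` for `u ∈ ball w ρ`: `z n = G n u`, `deriv (F n) (G n u) = 1 / deriv (G n) u → 1 / deriv g u` (`uh_der`: not `0`), `u ∉ Ph`.
-/

set_option autoImplicit false

open Filter Topology Metric Set MeasureTheory

namespace Pool.Agent.H41.XF

open Pool.Agent.H56.UD Pool.Agent.H43.UB
open Pool.Agent.H64.XL (LT)

variable {𝒰 : Ultrafilter ℕ} {F : ℕ → ℂ → ℂ} {D P : ℕ → Set ℂ}

private theorem gbr_choose {α : Type} {l : Filter ℕ} {p : ℕ → α → Prop} [Inhabited α]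
    (h : ∀ᶠ n in l, ∃ G : α, p n G) : ∃ G : ℕ → α, ∀ᶠ n in l, p n (G n) := by
  classical
  refine ⟨fun n => if h : ∃ G : α, p n G then h.choose else default, ?_⟩
  filter_upwards [h] with n hn
  rw [dif_pos hn]
  exact hn.choose_spec

/-- distortion on a ball inside a larger ball -/
private theorem gbr_chain {ρ ρ' : ℝ} (hρ : 0 < ρ) (hρ' : ρ < ρ') : ∃ K : ℝ, 1 ≤ K ∧
    ∀ (g : ℂ → ℂ) (w : ℂ), DifferentiableOn ℂ g (ball w ρ') → InjOn g (ball w ρ') →
      ∀ u ∈ ball w ρ, ∀ v ∈ ball w ρ, ‖deriv g u‖ ≤ K * ‖deriv g v‖ := by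
  obtain ⟨N, hN⟩ := exists_nat_gt (4 * ρ / (ρ' - ρ))
  have hR : 0 < ρ' - ρ := by linarith
  have hN0 : (0 : ℝ) < N := lt_trans (by positivity) hN
  have hN1 : 4 * ρ < N * (ρ' - ρ) := by
    rwa [div_lt_iff₀ hR] at hN
  refine ⟨Pool.Agent.H80.AJ.KK ^ N, one_le_pow₀ Pool.Agent.H80.AJ.one_le_KK, fun g w hg hi u hu v hv => ?_⟩
  obtain ⟨p, hp⟩ : ∃ p : ℕ → ℂ, ∀ i : ℕ, p i = v + (((i : ℝ) / N : ℝ) : ℂ) * (u - v) := ⟨_, fun _ => rfl⟩
  have hmem : ∀ i : ℕ, i ≤ N → p i ∈ ball w ρ := by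
    intro i hiN
    have h1 : (i : ℝ) / N ≤ 1 := by
      rw [div_le_one hN0]
      exact_mod_cast hiN
    have h2 : (0 : ℝ) ≤ (i : ℝ) / N := by positivity
    have h3 := (convex_ball w ρ).add_smul_sub_mem hv hu (t := (i : ℝ) / N) ⟨h2, h1⟩
    rw [hp, ← Complex.real_smul]
    exact h3
  have hstep : ∀ i : ℕ, i < N → ‖deriv g (p (i + 1))‖ ≤ Pool.Agent.H80.AJ.KK * ‖deriv g (p i)‖ := by
    intro i hiN
    have h1 := hmem i hiN.le
    have hsub : ball (p i) (ρ' - ρ) ⊆ ball w ρ' := by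
      refine ball_subset_ball' ?_
      rw [mem_ball] at h1
      linarith
    have huv : ‖u - v‖ < 2 * ρ := by
      rw [mem_ball, dist_eq_norm] at hu hv
      calc ‖u - v‖ = ‖(u - w) - (v - w)‖ := by congr 1; ring
        _ ≤ ‖u - w‖ + ‖v - w‖ := norm_sub_le _ _
        _ < _ := by linarith
    have hd : dist (p (i + 1)) (p i) ≤ (ρ' - ρ) / 2 := by
      have h3 : p (i + 1) - p i = ((1 / (N : ℝ) : ℝ) : ℂ) * (u - v) := by
        rw [hp, hp]
        push_cast
        ring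
      rw [dist_eq_norm, h3, norm_mul, Complex.norm_real, Real.norm_eq_abs, abs_of_pos (by positivity)]
      rw [one_div, inv_mul_le_iff₀ hN0]
      linarith
    exact Pool.Agent.H80.AJ.distort hR (hg.mono hsub) (hi.mono hsub) (mem_closedBall.2 hd)
      (mem_closedBall_self (by linarith))
  have hind : ∀ i : ℕ, i ≤ N → ‖deriv g (p i)‖ ≤ Pool.Agent.H80.AJ.KK ^ i * ‖deriv g v‖ := by
    intro i
    induction i with
    | zero =>
      intro _
      rw [hp]
      simp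
    | succ i ih =>
      intro hiN
      calc ‖deriv g (p (i + 1))‖ ≤ Pool.Agent.H80.AJ.KK * ‖deriv g (p i)‖ := hstep i (by omega)
        _ ≤ Pool.Agent.H80.AJ.KK * (Pool.Agent.H80.AJ.KK ^ i * ‖deriv g v‖) :=
          mul_le_mul_of_nonneg_left (ih (by omega)) Pool.Agent.H80.AJ.KK_pos.le
        _ = _ := by rw [pow_succ]; ring
  have hpN : p N = u := by
    rw [hp, div_self hN0.ne']
    push_cast
    ring
  have := hind N le_rfl
  rwa [hpN] at this

/-- the derivative of a local inverse -/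
private theorem gbr_der {f g : ℂ → ℂ} {D : Set ℂ} (hD : IsOpen D) (hf : DifferentiableOn ℂ f D)
    {w : ℂ} {ρ : ℝ} (hg : DifferentiableOn ℂ g (ball w ρ)) (h : ∀ u ∈ ball w ρ, g u ∈ D ∧ f (g u) = u)
    {u : ℂ} (hu : u ∈ ball w ρ) : deriv f (g u) * deriv g u = 1 := by
  have h1 : HasDerivAt f (deriv f (g u)) (g u) :=
    (hf.differentiableAt (hD.mem_nhds (h u hu).1)).hasDerivAt
  have h2 : HasDerivAt g (deriv g u) u :=
    (hg.differentiableAt (isOpen_ball.mem_nhds hu)).hasDerivAt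
  have h3 := h1.comp u h2
  have h4 : HasDerivAt (f ∘ g) 1 u := by
    refine (hasDerivAt_id u).congr_of_eventuallyEq ?_
    filter_upwards [isOpen_ball.mem_nhds hu] with v hv
    exact (h v hv).2
  exact h3.unique h4

/-- branches over discs off the limit set -/
theorem gb (h : LT 𝒰 F D P) {w s : ℂ} (hs : Gd 𝒰 F D P w s) {ρ : ℝ} (hρ : 0 < ρ) (hoff : Disjoint (closedBall w ρ) (Ph 𝒰 P)) :
    ∃ (G : ℕ → ℂ → ℂ) (g : ℂ → ℂ), (∀ᶠ n in (𝒰 : Filter ℕ), DifferentiableOn ℂ (G n) (ball w ρ) ∧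
      ∀ u ∈ ball w ρ, G n u ∈ D n ∧ F n (G n u) = u) ∧
    TendstoLocallyUniformlyOn G g (𝒰 : Filter ℕ) (ball w ρ) ∧ (∃ M : ℝ, ∀ᶠ n in (𝒰 : Filter ℕ), ∀ u ∈ ball w ρ, ‖G n u‖ ≤ M) ∧
    DifferentiableOn ℂ g (ball w ρ) ∧ InjOn g (ball w ρ) ∧
    g w = s ∧ ∀ u ∈ ball w ρ, Gd 𝒰 F D P u (g u) := by
  obtain ⟨δ, hδ, hdis⟩ := hoff.exists_thickenings (isCompact_closedBall w ρ) (ph_closed (𝒰 := 𝒰) (P := P))
  obtain ⟨ρ', hρ'⟩ : ∃ ρ' : ℝ, ρ' = ρ + δ / 2 := ⟨_, rfl⟩
  have hρρ' : ρ < ρ' := by linarith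
  have hoff' : Disjoint (closedBall w ρ') (Ph 𝒰 P) := by
    refine hdis.mono ?_ (self_subset_thickening hδ _)
    rw [thickening_closedBall hδ hρ.le]
    exact closedBall_subset_ball (by linarith)
  have hP := ph_off (isCompact_closedBall w ρ') hoff'
  obtain ⟨-, M, z, hz, hzs, hzw⟩ := hs
  obtain ⟨K, hK1, hK⟩ := gbr_chain hρ hρρ'
  -- the branches
  have hwn : ∀ᶠ n in (𝒰 : Filter ℕ), F n (z n) ∈ ball w ρ := hzw (isOpen_ball.mem_nhds (mem_ball_self hρ))
  have hex : ∀ᶠ n in (𝒰 : Filter ℕ), ∃ G : ℂ → ℂ, DifferentiableOn ℂ G (ball w ρ') ∧ G (F n (z n)) = z n ∧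
      ∀ u ∈ ball w ρ', G u ∈ D n ∧ F n (G u) = u := by
    filter_upwards [h.lift (‖w‖ + ρ'), hP, hz, hwn] with n hl hPn hzn hwn'
    refine hl (ball w ρ') id (F n (z n)) (z n) (convex_ball w ρ') isOpen_ball differentiableOn_id ?_
      (ball_subset_ball hρρ'.le hwn') hzn.1 rfl
    intro u hu
    refine ⟨?_, fun h1 => Set.disjoint_left.1 hPn (ball_subset_closedBall hu) h1⟩
    rw [mem_ball, dist_eq_norm] at hu
    calc ‖id u‖ = ‖w + (u - w)‖ := by rw [id]; congr 1; ring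
      _ ≤ ‖w‖ + ‖u - w‖ := norm_add_le _ _
      _ < _ := by linarith
  obtain ⟨G, hG⟩ := gbr_choose hex
  have hinj : ∀ᶠ n in (𝒰 : Filter ℕ), InjOn (G n) (ball w ρ') := by
    filter_upwards [hG] with n hn u hu v hv huv
    rw [← (hn.2.2 u hu).2, ← (hn.2.2 v hv).2, huv]
  -- the bound for the derivative at `F n (z n)`
  have hM0 : 0 < M := by
    obtain ⟨n, hn⟩ := hz.exists
    by_contra hc
    have := mul_nonpos_of_nonpos_of_nonneg (not_lt.1 hc) (norm_nonneg (deriv (F n) (z n)))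
    linarith [hn.2.1]
  have hder : ∀ᶠ n in (𝒰 : Filter ℕ), ‖deriv (G n) (F n (z n))‖ ≤ M ∧ 1 / M ≤ ‖deriv (G n) (F n (z n))‖ := by
    filter_upwards [hG, hz, hwn] with n hn hzn hwn'
    have h1 := gbr_der (h.Do n) (h.Fd n) hn.1 hn.2.2 (ball_subset_ball hρρ'.le hwn')
    rw [hn.2.1] at h1
    have h2 : ‖deriv (F n) (z n)‖ * ‖deriv (G n) (F n (z n))‖ = 1 := by
      rw [← norm_mul, h1, norm_one]
    have h3 := norm_nonneg (deriv (G n) (F n (z n)))
    have h4 := norm_nonneg (deriv (F n) (z n))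
    constructor
    · calc ‖deriv (G n) (F n (z n))‖ = 1 * ‖deriv (G n) (F n (z n))‖ := (one_mul _).symm
        _ ≤ M * ‖deriv (F n) (z n)‖ * ‖deriv (G n) (F n (z n))‖ := mul_le_mul_of_nonneg_right hzn.2.1 h3
        _ = M := by rw [mul_assoc, h2, mul_one]
    · rw [div_le_iff₀ hM0, ← h2, mul_comm]
      exact mul_le_mul_of_nonneg_left hzn.2.2 h3
  obtain ⟨B, hB⟩ : ∃ B : ℝ, B = ‖s‖ + 1 + K * M * (2 * ρ) := ⟨_, rfl⟩
  have hbd : ∀ᶠ n in (𝒰 : Filter ℕ), ∀ u ∈ ball w ρ, ‖G n u‖ ≤ B := by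
    have hzb : ∀ᶠ n in (𝒰 : Filter ℕ), ‖z n‖ ≤ ‖s‖ + 1 := by
      have h1 := hzs (isOpen_ball.mem_nhds (mem_ball_self (x := s) (one_pos)))
      filter_upwards [h1] with n hn
      have hn' : ‖z n - s‖ < 1 := by
        rw [← dist_eq_norm]
        exact hn
      calc ‖z n‖ = ‖s + (z n - s)‖ := by congr 1; ring
        _ ≤ ‖s‖ + ‖z n - s‖ := norm_add_le _ _
        _ ≤ _ := by linarith
    filter_upwards [hG, hinj, hder, hwn, hzb] with n hn hin hdn hwn' hzn u hu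
    have h1 : ∀ v ∈ ball w ρ, ‖deriv (G n) v‖ ≤ K * M := by
      intro v hv
      exact (hK (G n) w hn.1 hin v hv _ hwn').trans (mul_le_mul_of_nonneg_left hdn.1 (by linarith))
    have h2 : ‖G n u - G n (F n (z n))‖ ≤ K * M * ‖u - F n (z n)‖ := by
      refine Convex.norm_image_sub_le_of_norm_deriv_le (𝕜 := ℂ) (s := ball w ρ) ?_ h1
        (convex_ball w ρ) hwn' hu
      intro v hv
      exact hn.1.differentiableAt (isOpen_ball.mem_nhds (ball_subset_ball hρρ'.le hv))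
    have h3 : ‖u - F n (z n)‖ ≤ 2 * ρ := by
      rw [mem_ball, dist_eq_norm] at hu hwn'
      calc ‖u - F n (z n)‖ = ‖(u - w) - (F n (z n) - w)‖ := by congr 1; ring
        _ ≤ ‖u - w‖ + ‖F n (z n) - w‖ := norm_sub_le _ _
        _ ≤ _ := by linarith
    rw [hn.2.1] at h2
    calc ‖G n u‖ = ‖z n + (G n u - z n)‖ := by congr 1; ring
      _ ≤ ‖z n‖ + ‖G n u - z n‖ := norm_add_le _ _
      _ ≤ (‖s‖ + 1) + K * M * (2 * ρ) := by
        refine add_le_add hzn (h2.trans ?_)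
        exact mul_le_mul_of_nonneg_left h3 (by positivity)
      _ = B := hB.symm
  have hGd : ∀ᶠ n in (𝒰 : Filter ℕ), DifferentiableOn ℂ (G n) (ball w ρ) := by
    filter_upwards [hG] with n hn
    exact hn.1.mono (ball_subset_ball hρρ'.le)
  obtain ⟨g, hgd, hlim⟩ := um 𝒰 (isOpen_ball (x := w) (ε := ρ)) hGd (by
    intro u hu
    obtain ⟨r, hr, hsub⟩ := Metric.isOpen_iff.1 (isOpen_ball (x := w) (ε := ρ)) u hu
    refine ⟨r, B, hr, hsub, ?_⟩
    filter_upwards [hbd] with n hn v hv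
    exact hn v (hsub hv))
  have hw0 : w ∈ ball w ρ := mem_ball_self hρ
  have hww : Tendsto (fun n => F n (z n)) (𝒰 : Filter ℕ) (𝓝[ball w ρ] w) :=
    tendsto_nhdsWithin_iff.2 ⟨hzw, hwn⟩
  have hgw : g w = s := by
    have h1 : Tendsto (fun n => G n (F n (z n))) (𝒰 : Filter ℕ) (𝓝 (g w)) :=
      hlim.tendsto_comp (hgd.continuousOn w hw0) hw0 hww
    have h2 : Tendsto (fun n => G n (F n (z n))) (𝒰 : Filter ℕ) (𝓝 s) := by
      refine hzs.congr' ?_
      filter_upwards [hG] with n hn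
      exact hn.2.1.symm
    exact tendsto_nhds_unique h1 h2
  have hlim' : TendstoLocallyUniformlyOn (deriv ∘ G) (deriv g) (𝒰 : Filter ℕ) (ball w ρ) :=
    hlim.deriv hGd isOpen_ball
  have hgd' : ContinuousOn (deriv g) (ball w ρ) := (hgd.deriv isOpen_ball).continuousOn
  have hdw : deriv g w ≠ 0 := by
    have h1 : Tendsto (fun n => (deriv ∘ G) n (F n (z n))) (𝒰 : Filter ℕ) (𝓝 (deriv g w)) :=
      hlim'.tendsto_comp (hgd' w hw0) hw0 hww
    have h2 : 1 / M ≤ ‖deriv g w‖ := by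
      refine ge_of_tendsto h1.norm ?_
      filter_upwards [hder] with n hn
      exact hn.2
    intro h3
    rw [h3, norm_zero] at h2
    have : 0 < 1 / M := by positivity
    linarith
  have hginj : InjOn g (ball w ρ) := by
    refine uh_inj 𝒰 isOpen_ball (convex_ball w ρ).isPreconnected hGd hlim ?_ ⟨w, hw0, hdw⟩
    filter_upwards [hinj] with n hn
    exact hn.mono (ball_subset_ball hρρ'.le)
  refine ⟨G, g, ?_, hlim, ⟨B, hbd⟩, hgd, hginj, hgw, fun u hu => ?_⟩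
  · filter_upwards [hG] with n hn
    exact ⟨hn.1.mono (ball_subset_ball hρρ'.le), fun u hu => hn.2.2 u (ball_subset_ball hρρ'.le hu)⟩
  refine ⟨fun h1 => Set.disjoint_left.1 hoff (ball_subset_closedBall hu) h1, ?_⟩
  have hne := uh_der isOpen_ball hgd hginj hu
  obtain ⟨a, ha⟩ : ∃ a : ℝ, a = ‖deriv g u‖ := ⟨_, rfl⟩
  have ha0 : 0 < a := by
    rw [ha]
    exact norm_pos_iff.2 hne
  have hdu : Tendsto (fun n => ‖deriv (G n) u‖) (𝒰 : Filter ℕ) (𝓝 a) := by
    rw [ha]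
    exact (hlim'.tendsto_at hu).norm
  have h1 : ∀ᶠ n in (𝒰 : Filter ℕ), a / 2 < ‖deriv (G n) u‖ := hdu.eventually_const_lt (by linarith)
  have h2 : ∀ᶠ n in (𝒰 : Filter ℕ), ‖deriv (G n) u‖ < 2 * a := hdu.eventually_lt_const (by linarith)
  refine ⟨2 / a + 2 * a, fun n => G n u, ?_, hlim.tendsto_at hu, ?_⟩
  · filter_upwards [hG, h1, h2] with n hn h1n h2n
    have h3 := gbr_der (h.Do n) (h.Fd n) hn.1 hn.2.2 (ball_subset_ball hρρ'.le hu)
    have h4 : ‖deriv (F n) (G n u)‖ * ‖deriv (G n) u‖ = 1 := by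
      rw [← norm_mul, h3, norm_one]
    have h5 := norm_nonneg (deriv (F n) (G n u))
    have h6 : 0 < 2 / a := by positivity
    refine ⟨(hn.2.2 u (ball_subset_ball hρρ'.le hu)).1, ?_, ?_⟩
    · calc 1 = ‖deriv (G n) u‖ * ‖deriv (F n) (G n u)‖ := by rw [mul_comm, h4]
        _ ≤ (2 / a + 2 * a) * ‖deriv (F n) (G n u)‖ := mul_le_mul_of_nonneg_right (by linarith) h5
    · have h7 : ‖deriv (F n) (G n u)‖ ≤ 2 / a := by
        rw [le_div_iff₀ ha0]
        nlinarith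
      linarith
  · refine tendsto_const_nhds.congr' ?_
    filter_upwards [hG] with n hn
    exact (hn.2.2 u (ball_subset_ball hρρ'.le hu)).2.symm

end Pool.Agent.H41.XF
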