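import Pool.Agent.H56.UD.DD
import Pool.Agent.H56.UD.RA

/-!
# The field calculus (ROB => DIM, MP_8f2e1c): sequences of functions up to holomorphic functions and `o(1)`

`HL 𝒰 Y S A`: on compact subsets of `S`, `Y n = A + holomorphic + o(1)`. `HN 𝒰 Φ S`: `Φ n` is eventually holomorphic near compact subsets of `S`.
-/

set_option autoImplicit false

open Filter Topology Metric Set MeasureTheory

namespace Pool.Agent.H41.XF

open Pool.Agent.H56.UD

/-- `Y n` is `A` on `S` up to holomorphic functions and `o(1)` -/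
def HL (𝒰 : Ultrafilter ℕ) (Y : ℕ → ℂ → ℂ) (S : Set ℂ) (A : ℂ → ℂ) : Prop :=
  ∀ K ⊆ S, IsCompact K → ∀ ε : ℝ, 0 < ε → ∀ᶠ n in (𝒰 : Filter ℕ), ∃ (O : Set ℂ) (T : ℂ → ℂ), IsOpen O ∧ K ⊆ O ∧
    DifferentiableOn ℂ T O ∧ ∀ u ∈ K, ‖Y n u - T u - A u‖ ≤ ε

/-- `Φ n` is eventually holomorphic near compact subsets of `S` -/
def HN (𝒰 : Ultrafilter ℕ) (Φ : ℕ → ℂ → ℂ) (S : Set ℂ) : Prop :=
  ∀ K ⊆ S, IsCompact K → ∀ᶠ n in (𝒰 : Filter ℕ), ∃ O : Set ℂ, IsOpen O ∧ K ⊆ O ∧ DifferentiableOn ℂ (Φ n) O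

variable {𝒰 : Ultrafilter ℕ} {S S' : Set ℂ} {Y Y' Φ : ℕ → ℂ → ℂ} {A A' B F : ℂ → ℂ}

theorem hn_mono (h : HN 𝒰 Φ S) (hS : S' ⊆ S) : HN 𝒰 Φ S' := fun K hK hc => h K (hK.trans hS) hc

theorem hn_ball (h : HN 𝒰 Φ S) {u : ℂ} {r : ℝ} (hr : closedBall u r ⊆ S) :
    ∀ᶠ n in (𝒰 : Filter ℕ), DifferentiableOn ℂ (Φ n) (ball u r) := by
  filter_upwards [h _ hr (isCompact_closedBall u r)] with n hn
  obtain ⟨O, -, h2, h3⟩ := hn
  exact h3.mono (ball_subset_closedBall.trans h2)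

/-- a sequence which is holomorphic on the whole set -/
theorem hn_of (hS : IsOpen S) (h : ∀ᶠ n in (𝒰 : Filter ℕ), DifferentiableOn ℂ (Φ n) S) : HN 𝒰 Φ S := by
  intro K hK _
  filter_upwards [h] with n hn
  exact ⟨S, hS, hK, hn⟩

theorem tlu_mono (h : TendstoLocallyUniformlyOn Φ F (𝒰 : Filter ℕ) S) (hS : S' ⊆ S) :
    TendstoLocallyUniformlyOn Φ F (𝒰 : Filter ℕ) S' := h.mono hS

/-- locally uniform convergence is local -/
theorem tlu_loc (h : ∀ u ∈ S, ∃ r : ℝ, 0 < r ∧ TendstoLocallyUniformlyOn Φ F (𝒰 : Filter ℕ) (ball u r)) :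
    TendstoLocallyUniformlyOn Φ F (𝒰 : Filter ℕ) S := by
  intro V hV u hu
  obtain ⟨r, hr, h1⟩ := h u hu
  obtain ⟨t, ht, h2⟩ := h1 V hV u (mem_ball_self hr)
  refine ⟨t, ?_, h2⟩
  rw [isOpen_ball.nhdsWithin_eq (mem_ball_self hr)] at ht
  exact mem_nhdsWithin_of_mem_nhds ht

theorem hn_diff (hS : IsOpen S) (h : HN 𝒰 Φ S) (hc : TendstoLocallyUniformlyOn Φ F (𝒰 : Filter ℕ) S) :
    DifferentiableOn ℂ F S := by
  intro u hu
  obtain ⟨r, hr, h1⟩ := Metric.nhds_basis_closedBall.mem_iff.1 (hS.mem_nhds hu)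
  have h2 := (hc.mono (ball_subset_closedBall.trans h1)).differentiableOn (hn_ball h h1) isOpen_ball
  exact (h2.differentiableAt (isOpen_ball.mem_nhds (mem_ball_self hr))).differentiableWithinAt

theorem hn_deriv (hS : IsOpen S) (h : HN 𝒰 Φ S) (hc : TendstoLocallyUniformlyOn Φ F (𝒰 : Filter ℕ) S) :
    TendstoLocallyUniformlyOn (fun n => deriv (Φ n)) (deriv F) (𝒰 : Filter ℕ) S := by
  refine tlu_loc fun u hu => ?_
  obtain ⟨r, hr, h1⟩ := Metric.nhds_basis_closedBall.mem_iff.1 (hS.mem_nhds hu)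
  exact ⟨r, hr, (hc.mono (ball_subset_closedBall.trans h1)).deriv (hn_ball h h1) isOpen_ball⟩

theorem hn_dn (h : HN 𝒰 Φ S) : HN 𝒰 (fun n => deriv (Φ n)) S := by
  intro K hK hc
  filter_upwards [h K hK hc] with n hn
  obtain ⟨O, h1, h2, h3⟩ := hn
  exact ⟨O, h1, h2, h3.deriv h1⟩

/-- compact sets are uniform -/
theorem tlu_cpt (hS : IsOpen S) (hc : TendstoLocallyUniformlyOn Φ F (𝒰 : Filter ℕ) S) {K : Set ℂ} (hK : K ⊆ S)
    (hKc : IsCompact K) {ε : ℝ} (hε : 0 < ε) : ∀ᶠ n in (𝒰 : Filter ℕ), ∀ u ∈ K, ‖Φ n u - F u‖ < ε := by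
  have h1 := (tendstoLocallyUniformlyOn_iff_forall_isCompact hS).1 hc K hK hKc
  rw [Metric.tendstoUniformlyOn_iff] at h1
  filter_upwards [h1 ε hε] with n hn u hu
  have h2 := hn u hu
  rwa [dist_comm, dist_eq_norm] at h2

theorem hl_mono (h : HL 𝒰 Y S A) (hS : S' ⊆ S) : HL 𝒰 Y S' A := fun K hK hc => h K (hK.trans hS) hc

theorem hl_congr (h : HL 𝒰 Y S A) (hA : ∀ u ∈ S, A u = A' u) : HL 𝒰 Y S A' := by
  intro K hK hc ε hε
  filter_upwards [h K hK hc ε hε] with n hn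
  obtain ⟨O, T, h1, h2, h3, h4⟩ := hn
  refine ⟨O, T, h1, h2, h3, fun u hu => ?_⟩
  rw [← hA u (hK hu)]
  exact h4 u hu

/-- uniformly approximable functions are holomorphic -/
private theorem gal_app {A : ℂ → ℂ} {w : ℂ} {r : ℝ}
    (h : ∀ r' < r, ∀ ε : ℝ, 0 < ε → ∃ H : ℂ → ℂ, DifferentiableOn ℂ H (ball w r) ∧ ∀ u ∈ closedBall w r', ‖A u - H u‖ ≤ ε) :
    DifferentiableOn ℂ A (ball w r) := by
  intro u hu
  obtain ⟨r', h1, h2⟩ := exists_between (mem_ball.1 hu)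
  choose H hH1 hH2 using fun n : ℕ => h r' h2 (1 / ((n : ℝ) + 1)) (by positivity)
  have h3 : TendstoUniformlyOn H A atTop (ball w r') := by
    rw [Metric.tendstoUniformlyOn_iff]
    intro ε hε
    obtain ⟨N, hN⟩ := exists_nat_one_div_lt hε
    filter_upwards [eventually_ge_atTop N] with n hn v hv
    rw [dist_eq_norm]
    refine (hH2 n v (ball_subset_closedBall hv)).trans_lt (lt_of_le_of_lt ?_ hN)
    exact one_div_le_one_div_of_le (by positivity) (by exact_mod_cast Nat.add_le_add_right hn 1)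
  have h4 : DifferentiableOn ℂ A (ball w r') :=
    h3.tendstoLocallyUniformlyOn.differentiableOn
      (Eventually.of_forall fun n => (hH1 n).mono (ball_subset_ball h2.le)) isOpen_ball
  exact (h4.differentiableAt (isOpen_ball.mem_nhds (mem_ball.2 h1))).differentiableWithinAt

/-- the function `A` is unique up to holomorphic functions -/
theorem hl_hol (hS : IsOpen S) (h : HL 𝒰 Y S A) (h' : HL 𝒰 Y S A') : DifferentiableOn ℂ (fun u => A u - A' u) S := by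
  intro w hw
  obtain ⟨r, hr, h1⟩ := Metric.nhds_basis_closedBall.mem_iff.1 (hS.mem_nhds hw)
  have h2 : DifferentiableOn ℂ (fun u => A u - A' u) (ball w r) := by
    refine gal_app fun r' hr' ε hε => ?_
    obtain ⟨n, hn, hn'⟩ := ((h _ h1 (isCompact_closedBall w r) (ε / 2) (by positivity)).and
      (h' _ h1 (isCompact_closedBall w r) (ε / 2) (by positivity))).exists
    obtain ⟨O, T, -, a2, a3, a4⟩ := hn
    obtain ⟨O', T', -, b2, b3, b4⟩ := hn'
    refine ⟨fun u => T' u - T u, (b3.mono (ball_subset_closedBall.trans b2)).sub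
      (a3.mono (ball_subset_closedBall.trans a2)), fun u hu => ?_⟩
    have hu' : u ∈ closedBall w r := closedBall_subset_closedBall hr'.le hu
    have e1 := a4 u hu'
    have e2 := b4 u hu'
    calc ‖A u - A' u - (T' u - T u)‖ = ‖(Y n u - T' u - A' u) - (Y n u - T u - A u)‖ := by
          congr 1
          ring
      _ ≤ ‖Y n u - T' u - A' u‖ + ‖Y n u - T u - A u‖ := norm_sub_le _ _
      _ ≤ ε := by linarith
  exact (h2.differentiableAt (isOpen_ball.mem_nhds (mem_ball_self hr))).differentiableWithinAt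

/-- adding holomorphic functions -/
theorem hl_add (h : HL 𝒰 Y S A)
    (hY : ∀ K ⊆ S, IsCompact K → ∀ᶠ n in (𝒰 : Filter ℕ), ∃ (O : Set ℂ) (T : ℂ → ℂ), IsOpen O ∧ K ⊆ O ∧
      DifferentiableOn ℂ T O ∧ ∀ u ∈ K, Y' n u = Y n u + T u) : HL 𝒰 Y' S A := by
  intro K hK hc ε hε
  filter_upwards [h K hK hc ε hε, hY K hK hc] with n hn hn'
  obtain ⟨O, T, a1, a2, a3, a4⟩ := hn
  obtain ⟨O', T', b1, b2, b3, b4⟩ := hn'
  refine ⟨O ∩ O', fun u => T u + T' u, a1.inter b1, subset_inter a2 b2, (a3.mono inter_subset_left).add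
    (b3.mono inter_subset_right), fun u hu => ?_⟩
  rw [b4 u hu]
  have := a4 u hu
  rwa [show Y n u + T' u - (T u + T' u) - A u = Y n u - T u - A u by ring]

/-- products -/
theorem hl_mul (hS : IsOpen S) (hΦ : HN 𝒰 Φ S) (hc : TendstoLocallyUniformlyOn Φ F (𝒰 : Filter ℕ) S)
    (hA : ContinuousOn A S) (h : HL 𝒰 Y S A) : HL 𝒰 (fun n u => Φ n u * Y n u) S (fun u => F u * A u) := by
  have hFd := hn_diff hS hΦ hc
  intro K hK hKc ε hε
  obtain ⟨C, hC⟩ := hKc.exists_bound_of_continuousOn (hFd.continuousOn.mono hK)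
  obtain ⟨C', hC'⟩ := hKc.exists_bound_of_continuousOn (hA.mono hK)
  obtain ⟨D, hD1, hD2, hD3⟩ : ∃ D : ℝ, 1 ≤ D ∧ C + 1 ≤ D ∧ C' ≤ D :=
    ⟨max 1 (max (C + 1) C'), le_max_left _ _, (le_max_left _ _).trans (le_max_right _ _),
      (le_max_right _ _).trans (le_max_right _ _)⟩
  have hD0 : 0 < D := by linarith
  obtain ⟨e, he, he1, he2⟩ : ∃ e : ℝ, 0 < e ∧ e ≤ 1 ∧ e * D ≤ ε / 2 := by
    refine ⟨min 1 (ε / 2 / D), by positivity, min_le_left _ _, ?_⟩
    calc min 1 (ε / 2 / D) * D ≤ ε / 2 / D * D := mul_le_mul_of_nonneg_right (min_le_right _ _) hD0.le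
      _ = ε / 2 := div_mul_cancel₀ _ hD0.ne'
  filter_upwards [h K hK hKc e he, hΦ K hK hKc, tlu_cpt hS hc hK hKc he] with n hn hn' hn2
  obtain ⟨O, T, a1, a2, a3, a4⟩ := hn
  obtain ⟨O', b1, b2, b3⟩ := hn'
  refine ⟨O ∩ O', fun u => Φ n u * T u, a1.inter b1, subset_inter a2 b2, (b3.mono inter_subset_right).mul
    (a3.mono inter_subset_left), fun u hu => ?_⟩
  have e1 := a4 u hu
  have e2 := hn2 u hu
  have e3 := hC u hu
  have e4 := hC' u hu
  have e5 : ‖Φ n u‖ ≤ D := by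
    have : ‖Φ n u‖ ≤ ‖F u‖ + ‖Φ n u - F u‖ := by
      have := norm_add_le (F u) (Φ n u - F u)
      rwa [add_sub_cancel] at this
    linarith
  calc ‖Φ n u * Y n u - Φ n u * T u - F u * A u‖ = ‖Φ n u * (Y n u - T u - A u) + (Φ n u - F u) * A u‖ := by
        congr 1
        ring
    _ ≤ ‖Φ n u * (Y n u - T u - A u)‖ + ‖(Φ n u - F u) * A u‖ := norm_add_le _ _
    _ = ‖Φ n u‖ * ‖Y n u - T u - A u‖ + ‖Φ n u - F u‖ * ‖A u‖ := by rw [norm_mul, norm_mul]
    _ ≤ D * e + e * D := add_le_add (mul_le_mul e5 e1 (norm_nonneg _) hD0.le)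
        (mul_le_mul e2.le (e4.trans hD3) (norm_nonneg _) he.le)
    _ ≤ ε := by linarith

/-- division -/
theorem hl_div (hS : IsOpen S) (hΦ : HN 𝒰 Φ S) (hc : TendstoLocallyUniformlyOn Φ F (𝒰 : Filter ℕ) S)
    (hF : ∀ u ∈ S, F u ≠ 0) (hB : ContinuousOn B S) (h : HL 𝒰 (fun n u => Φ n u * Y n u) S B) :
    HL 𝒰 Y S (fun u => B u / F u) := by
  have hFd := hn_diff hS hΦ hc
  intro K hK hKc ε hε
  obtain ⟨K1, hK1, hKK, hK1S⟩ := exists_compact_between hKc hS hK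
  rcases K1.eq_empty_or_nonempty with rfl | hne
  · have hKe : K = ∅ := by
      rw [interior_empty] at hKK
      exact subset_empty_iff.1 hKK
    refine Eventually.of_forall fun n => ⟨univ, fun _ => 0, isOpen_univ, subset_univ _, differentiableOn_const 0, ?_⟩
    rw [hKe]
    exact fun u hu => absurd hu (notMem_empty u)
  obtain ⟨u0, hu0, hmin⟩ := hK1.exists_isMinOn hne (hFd.continuousOn.mono hK1S).norm
  obtain ⟨m, hm⟩ : ∃ m : ℝ, m = ‖F u0‖ := ⟨_, rfl⟩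
  have hm0 : 0 < m := by rw [hm]; exact norm_pos_iff.2 (hF u0 (hK1S hu0))
  have hmF : ∀ u ∈ K1, m ≤ ‖F u‖ := fun u hu => by rw [hm]; exact hmin hu
  obtain ⟨C, hC⟩ := hKc.exists_bound_of_continuousOn (hB.mono hK)
  obtain ⟨D, hD1, hD2⟩ : ∃ D : ℝ, 1 ≤ D ∧ C ≤ D := ⟨max 1 C, le_max_left _ _, le_max_right _ _⟩
  have hD0 : 0 < D := by linarith
  obtain ⟨e, he, he1, he2, he3⟩ : ∃ e : ℝ, 0 < e ∧ e ≤ m / 2 ∧ e / (m / 2) ≤ ε / 2 ∧ D * (e / (m / 2 * m)) ≤ ε / 2 := by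
    refine ⟨min (m / 2) (min (ε / 2 * (m / 2)) (ε / 2 * (m / 2 * m) / D)), by positivity, min_le_left _ _, ?_, ?_⟩
    · rw [div_le_iff₀ (by positivity)]
      exact (min_le_right _ _).trans (min_le_left _ _)
    · rw [mul_div_assoc', div_le_iff₀ (by positivity)]
      calc D * min (m / 2) (min (ε / 2 * (m / 2)) (ε / 2 * (m / 2 * m) / D)) ≤ D * (ε / 2 * (m / 2 * m) / D) :=
            mul_le_mul_of_nonneg_left ((min_le_right _ _).trans (min_le_right _ _)) hD0.le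
        _ = _ := by field_simp
  filter_upwards [h K hK hKc e he, hΦ K1 hK1S hK1, tlu_cpt hS hc hK1S hK1 he] with n hn hn' hn2
  obtain ⟨O, T, a1, a2, a3, a4⟩ := hn
  obtain ⟨O', b1, b2, b3⟩ := hn'
  have hlow : ∀ u ∈ K1, m / 2 ≤ ‖Φ n u‖ := by
    intro u hu
    have e1 := hmF u hu
    have e2 := hn2 u hu
    have : ‖F u‖ ≤ ‖Φ n u‖ + ‖Φ n u - F u‖ := by
      have := norm_sub_le (Φ n u) (Φ n u - F u)
      rwa [sub_sub_cancel] at this
    linarith
  have hne0 : ∀ u ∈ K1, Φ n u ≠ 0 := by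
    intro u hu h0
    have := hlow u hu
    rw [h0, norm_zero] at this
    linarith
  refine ⟨O ∩ interior K1, fun u => T u / Φ n u, a1.inter isOpen_interior, subset_inter a2 hKK, ?_, fun u hu => ?_⟩
  · exact (a3.mono inter_subset_left).div (b3.mono ((inter_subset_right.trans interior_subset).trans b2))
      fun u hu => hne0 u (interior_subset hu.2)
  · have hu1 : u ∈ K1 := interior_subset (hKK hu)
    have f1 := a4 u hu
    have f2 := hn2 u hu1
    have f3 := hlow u hu1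
    have f4 := hmF u hu1
    have f5 := hC u hu
    have n1 := hne0 u hu1
    have n2 := hF u (hK hu)
    have p1 : 0 < ‖Φ n u‖ := norm_pos_iff.2 n1
    have p2 : 0 < ‖F u‖ := norm_pos_iff.2 n2
    have key : Y n u - T u / Φ n u - B u / F u = (Φ n u * Y n u - T u - B u) / Φ n u +
        B u * (-(Φ n u - F u) / (Φ n u * F u)) := by
      field_simp
      ring
    rw [key]
    calc ‖(Φ n u * Y n u - T u - B u) / Φ n u + B u * (-(Φ n u - F u) / (Φ n u * F u))‖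
        ≤ ‖(Φ n u * Y n u - T u - B u) / Φ n u‖ + ‖B u * (-(Φ n u - F u) / (Φ n u * F u))‖ := norm_add_le _ _
      _ = ‖Φ n u * Y n u - T u - B u‖ / ‖Φ n u‖ + ‖B u‖ * (‖Φ n u - F u‖ / (‖Φ n u‖ * ‖F u‖)) := by
          rw [norm_div, norm_mul, norm_div, norm_neg, norm_mul]
      _ ≤ e / (m / 2) + D * (e / (m / 2 * m)) := by
          refine add_le_add (div_le_div₀ he.le f1 (by positivity) f3) ?_
          refine mul_le_mul (f5.trans hD2) ?_ (by positivity) hD0.le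
          exact div_le_div₀ he.le f2.le (by positivity) (mul_le_mul f3 f4 hm0.le (norm_nonneg _))
      _ ≤ ε := by linarith

/-- compact subsets are mapped into a compact subset -/
theorem tlu_maps (hS : IsOpen S) (hS' : IsOpen S') (hc : TendstoLocallyUniformlyOn Φ F (𝒰 : Filter ℕ) S)
    (hFc : ContinuousOn F S) (hF : MapsTo F S S') {K : Set ℂ} (hK : K ⊆ S) (hKc : IsCompact K) :
    ∃ K' ⊆ S', IsCompact K' ∧ (∀ u ∈ K, F u ∈ K') ∧ ∀ᶠ n in (𝒰 : Filter ℕ), ∀ u ∈ K, Φ n u ∈ K' := by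
  have h1 : IsCompact (F '' K) := hKc.image_of_continuousOn (hFc.mono hK)
  have h2 : F '' K ⊆ S' := by
    rintro _ ⟨u, hu, rfl⟩
    exact hF (hK hu)
  obtain ⟨δ, hδ, h3⟩ := h1.exists_cthickening_subset_open hS' h2
  refine ⟨cthickening δ (F '' K), h3, h1.cthickening, fun u hu => self_subset_cthickening _ (mem_image_of_mem F hu), ?_⟩
  filter_upwards [tlu_cpt hS hc hK hKc hδ] with n hn u hu
  refine mem_cthickening_of_dist_le _ (F u) _ _ (mem_image_of_mem F hu) ?_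
  rw [dist_eq_norm]
  exact (hn u hu).le

/-- composition -/
theorem hl_comp (hS : IsOpen S) (hS' : IsOpen S') (hΦ : HN 𝒰 Φ S)
    (hc : TendstoLocallyUniformlyOn Φ F (𝒰 : Filter ℕ) S) (hF : MapsTo F S S') (hA' : ContinuousOn A' S')
    (h : HL 𝒰 Y S' A') : HL 𝒰 (fun n u => Y n (Φ n u)) S (fun u => A' (F u)) := by
  have hFd := hn_diff hS hΦ hc
  intro K hK hKc ε hε
  obtain ⟨K1, hK1, hKK, hK1S⟩ := exists_compact_between hKc hS hK
  obtain ⟨K', hK'S, hK'c, hFK, hΦK⟩ := tlu_maps hS hS' hc hFd.continuousOn hF hK1S hK1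
  have hu := hK'c.uniformContinuousOn_of_continuous (hA'.mono hK'S)
  rw [Metric.uniformContinuousOn_iff] at hu
  obtain ⟨d, hd, hu'⟩ := hu (ε / 2) (by positivity)
  filter_upwards [h K' hK'S hK'c (ε / 2) (by positivity), hΦ K1 hK1S hK1, hΦK, tlu_cpt hS hc hK1S hK1 hd] with
    n hn hn' hn2 hn3
  obtain ⟨O, T, a1, a2, a3, a4⟩ := hn
  obtain ⟨O', b1, b2, b3⟩ := hn'
  refine ⟨interior K1, fun u => T (Φ n u), isOpen_interior, hKK, ?_, fun u hu => ?_⟩
  · exact a3.comp (b3.mono (interior_subset.trans b2)) fun u hu => a2 (hn2 u (interior_subset hu))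
  · have hu1 : u ∈ K1 := interior_subset (hKK hu)
    have f1 := a4 (Φ n u) (hn2 u hu1)
    have f2 := hu' (Φ n u) (hn2 u hu1) (F u) (hFK u hu1) (by rw [dist_eq_norm]; exact hn3 u hu1)
    rw [dist_eq_norm] at f2
    calc ‖Y n (Φ n u) - T (Φ n u) - A' (F u)‖ = ‖(Y n (Φ n u) - T (Φ n u) - A' (Φ n u)) + (A' (Φ n u) - A' (F u))‖ := by
          congr 1
          ring
      _ ≤ ‖Y n (Φ n u) - T (Φ n u) - A' (Φ n u)‖ + ‖A' (Φ n u) - A' (F u)‖ := norm_add_le _ _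
      _ ≤ ε := by linarith

end Pool.Agent.H41.XF
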