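import Pool.Agent.H41.XF.Gbr
import Pool.Agent.H43.UB.NEA

/-!
# ROB => DIM, chapter X: the limit map `Fh` (copy of H43/UB/NEA for limit systems without gap discs)

`near`: `gb` at `(w, s)` with a small `ρ` (`Ph` closed, `w ∉ Ph`): `G n → g`, `g w = s`, `g` injective, not locally constant. `uh_hit` at `u0 = w` with the targets `z n → s = g w`: for every `ε` and almost all `n` there is `u ∈ ball w ε` with `G n u = z n`: `z n ∈ D n`, `F n (z n) = u`.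
`uq`: the same `G n`: `z n = G n u`, `z' n = G n u'`, `u = F n (z n) = F n (z' n) = u'`. `gd_unique`: `near` for the sequence of the second pair.
`Fh s` the value (`0` off `Sg`). `fh_loc`: `g '' ball w ρ` is an open neighbourhood of `s` in `Sg` on which `Fh (g u) = u`. `sg_open`, `fh_diff`: inverse function (`HasDerivAt.of_local_left_inverse` or `HasStrictDerivAt.to_local_inverse`; `Fh` is continuous: `Fh` near `g u` is the inverse of the homeomorphism `g`), `fh_der`: `deriv Fh s ≠ 0`.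
`sc_open` (`IsOpen.connectedComponentIn`), `sc_sub`, `sc_of`: a preconnected subset of `Sg` which meets `Sc` is in `Sc` (`IsPreconnected.subset_connectedComponentIn`, `connectedComponentIn_eq`).
-/

set_option autoImplicit false

open Filter Topology Metric Set MeasureTheory

namespace Pool.Agent.H41.XF

open Pool.Agent.H56.UD
open Pool.Agent.H43.UB (Fh uh_hit uh_open uh_der lift_eq ph_closed)
open Pool.Agent.H64.XL (LT)

variable {𝒰 : Ultrafilter ℕ} {F : ℕ → ℂ → ℂ} {D P : ℕ → Set ℂ}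

/-- the local branch at a good pair -/
private theorem loc_br (h : LT 𝒰 F D P) {w s : ℂ} (hs : Gd 𝒰 F D P w s) : ∃ (ρ : ℝ) (G : ℕ → ℂ → ℂ) (g : ℂ → ℂ), 0 < ρ ∧
    (∀ᶠ n in (𝒰 : Filter ℕ), DifferentiableOn ℂ (G n) (ball w ρ) ∧ ∀ u ∈ ball w ρ, G n u ∈ D n ∧ F n (G n u) = u) ∧
    TendstoLocallyUniformlyOn G g (𝒰 : Filter ℕ) (ball w ρ) ∧ DifferentiableOn ℂ g (ball w ρ) ∧ InjOn g (ball w ρ) ∧
    g w = s ∧ ∀ u ∈ ball w ρ, Gd 𝒰 F D P u (g u) := by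
  have hc : (Ph 𝒰 P)ᶜ ∈ 𝓝 w := (ph_closed (𝒰 := 𝒰) (P := P)).isOpen_compl.mem_nhds hs.1
  obtain ⟨ρ, hρ, hb⟩ := Metric.nhds_basis_closedBall.mem_iff.1 hc
  obtain ⟨G, g, h1, h2, _, h4, h5, h6, h7⟩ := gb h hs hρ (Set.disjoint_left.2 fun x hx hx' => hb hx hx')
  exact ⟨ρ, G, g, hρ, h1, h2, h4, h5, h6, h7⟩

/-- the branch hits every sequence which tends to `s` -/
private theorem loc_hit (h : LT 𝒰 F D P) {w s : ℂ} (hs : Gd 𝒰 F D P w s) : ∃ (G : ℕ → ℂ → ℂ),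
    ∀ z : ℕ → ℂ, Tendsto z (𝒰 : Filter ℕ) (𝓝 s) → ∀ ε : ℝ, 0 < ε →
      ∀ᶠ n in (𝒰 : Filter ℕ), ∃ u ∈ ball w ε, G n u = z n ∧ z n ∈ D n ∧ F n (z n) = u := by
  obtain ⟨ρ, G, g, hρ, h1, h2, h3, h4, h5, _⟩ := loc_br h hs
  refine ⟨G, fun z hz ε hε => ?_⟩
  have hn : ¬ ∀ᶠ u in 𝓝 w, g u = g w := by
    intro hc
    have hb : ball w ρ ∈ 𝓝 w := ball_mem_nhds w hρ
    have h6 : ∀ᶠ u in 𝓝[≠] w, g u = g w ∧ u ∈ ball w ρ ∧ u ≠ w :=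
      ((hc.and hb).filter_mono nhdsWithin_le_nhds).and self_mem_nhdsWithin |>.mono fun u hu => ⟨hu.1.1, hu.1.2, hu.2⟩
    obtain ⟨u, hu1, hu2, hu3⟩ := h6.exists
    exact hu3 (h4 hu2 (mem_ball_self hρ) hu1)
  have h7 := uh_hit 𝒰 isOpen_ball (h1.mono fun n hn => hn.1) h2 (mem_ball_self hρ) hn (w := z) (by rw [h5]; exact hz) hε
  filter_upwards [h7, h1] with n hn1 hn2
  obtain ⟨u, hu, he⟩ := hn1
  have h8 := hn2.2 u hu.2
  refine ⟨u, hu.1, he, ?_, ?_⟩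
  · rw [← he]; exact h8.1
  · rw [← he]; exact h8.2

/-- the local inverse of `Fh` -/
private theorem loc_inv (h : LT 𝒰 F D P) {s : ℂ} (hs : s ∈ Sg 𝒰 F D P) : ∃ (ρ : ℝ) (w : ℂ) (g : ℂ → ℂ), 0 < ρ ∧
    DifferentiableOn ℂ g (ball w ρ) ∧ InjOn g (ball w ρ) ∧ g w = s ∧ ∀ u ∈ ball w ρ, Gd 𝒰 F D P u (g u) := by
  obtain ⟨w, hw⟩ := hs
  obtain ⟨ρ, G, g, hρ, h1, h2, h3, h4, h5, h6⟩ := loc_br h hw
  exact ⟨ρ, w, g, hρ, h3, h4, h5, h6⟩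

theorem near (h : LT 𝒰 F D P) {w s : ℂ} (hs : Gd 𝒰 F D P w s) {z : ℕ → ℂ} (hz : Tendsto z (𝒰 : Filter ℕ) (𝓝 s)) :
    (∀ᶠ n in (𝒰 : Filter ℕ), z n ∈ D n) ∧ Tendsto (fun n => F n (z n)) (𝒰 : Filter ℕ) (𝓝 w) := by
  obtain ⟨G, hG⟩ := loc_hit h hs
  constructor
  · filter_upwards [hG z hz 1 one_pos] with n hn
    obtain ⟨u, _, _, h1, _⟩ := hn
    exact h1
  · rw [Metric.tendsto_nhds]
    intro ε hε
    filter_upwards [hG z hz ε hε] with n hn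
    obtain ⟨u, hu, _, _, h1⟩ := hn
    rw [h1]
    exact hu

theorem uq (h : LT 𝒰 F D P) {w s : ℂ} (hs : Gd 𝒰 F D P w s) {z z' : ℕ → ℂ} (hz : Tendsto z (𝒰 : Filter ℕ) (𝓝 s))
    (hz' : Tendsto z' (𝒰 : Filter ℕ) (𝓝 s)) (he : ∀ᶠ n in (𝒰 : Filter ℕ), F n (z n) = F n (z' n)) :
    ∀ᶠ n in (𝒰 : Filter ℕ), z n = z' n := by
  obtain ⟨G, hG⟩ := loc_hit h hs
  filter_upwards [hG z hz 1 one_pos, hG z' hz' 1 one_pos, he] with n hn hn' hne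
  obtain ⟨u, _, h1, _, h2⟩ := hn
  obtain ⟨u', _, h1', _, h2'⟩ := hn'
  rw [← h1, ← h1', ← h2, ← h2', hne]

theorem gd_unique (h : LT 𝒰 F D P) {w w' s : ℂ} (hs : Gd 𝒰 F D P w s) (hs' : Gd 𝒰 F D P w' s) : w = w' := by
  obtain ⟨_, M, z, _, h2, h3⟩ := hs'
  exact tendsto_nhds_unique (near h hs h2).2 h3

theorem fh_eq (h : LT 𝒰 F D P) {w s : ℂ} (hs : Gd 𝒰 F D P w s) : Fh 𝒰 F D P s = w := by
  have he : ∃ w, Gd 𝒰 F D P w s := ⟨w, hs⟩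
  unfold Fh
  rw [dif_pos he]
  exact gd_unique h he.choose_spec hs

theorem fh_gd {s : ℂ} (hs : s ∈ Sg 𝒰 F D P) : Gd 𝒰 F D P (Fh 𝒰 F D P s) s := by
  have he : ∃ w, Gd 𝒰 F D P w s := hs
  unfold Fh
  rw [dif_pos he]
  exact he.choose_spec

theorem sg_open (h : LT 𝒰 F D P) : IsOpen (Sg 𝒰 F D P) := by
  rw [isOpen_iff_mem_nhds]
  intro s hs
  obtain ⟨ρ, w, g, hρ, h1, h2, h3, h4⟩ := loc_inv h hs
  have h5 : IsOpen (g '' ball w ρ) := uh_open isOpen_ball h1 h2 isOpen_ball le_rfl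
  have h6 : g '' ball w ρ ∈ 𝓝 s := h5.mem_nhds ⟨w, mem_ball_self hρ, h3⟩
  refine mem_of_superset h6 ?_
  rintro _ ⟨u, hu, rfl⟩
  exact ⟨u, h4 u hu⟩

private theorem fh_strict (h : LT 𝒰 F D P) {s : ℂ} (hs : s ∈ Sg 𝒰 F D P) :
    ∃ d : ℂ, d ≠ 0 ∧ HasStrictDerivAt (Fh 𝒰 F D P) d s := by
  obtain ⟨ρ, w, g, hρ, h1, h2, h3, h4⟩ := loc_inv h hs
  have hw : w ∈ ball w ρ := mem_ball_self hρ
  have h5 : deriv g w ≠ 0 := uh_der isOpen_ball h1 h2 hw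
  have h6 : HasStrictDerivAt g (deriv g w) w :=
    (h1.analyticAt (isOpen_ball.mem_nhds hw)).hasStrictDerivAt
  have h7 : ∀ᶠ u in 𝓝 w, Fh 𝒰 F D P (g u) = u := by
    filter_upwards [isOpen_ball.mem_nhds hw] with u hu
    exact fh_eq h (h4 u hu)
  have h8 := h6.to_local_left_inverse h5 h7
  rw [h3] at h8
  exact ⟨_, inv_ne_zero h5, h8⟩

theorem fh_diff (h : LT 𝒰 F D P) : DifferentiableOn ℂ (Fh 𝒰 F D P) (Sg 𝒰 F D P) := by
  intro s hs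
  obtain ⟨d, _, hd⟩ := fh_strict h hs
  exact hd.hasDerivAt.differentiableAt.differentiableWithinAt

theorem fh_der (h : LT 𝒰 F D P) {s : ℂ} (hs : s ∈ Sg 𝒰 F D P) : deriv (Fh 𝒰 F D P) s ≠ 0 := by
  obtain ⟨d, hd0, hd⟩ := fh_strict h hs
  rw [hd.hasDerivAt.deriv]
  exact hd0

theorem sc_open (h : LT 𝒰 F D P) (sb : ℂ) : IsOpen (Sc 𝒰 F D P sb) := by
  exact (sg_open h).connectedComponentIn

theorem sc_sub (sb : ℂ) : Sc 𝒰 F D P sb ⊆ Sg 𝒰 F D P := by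
  exact connectedComponentIn_subset _ _

theorem sc_of {sb : ℂ} {T : Set ℂ} (hT : IsPreconnected T) (hTs : T ⊆ Sg 𝒰 F D P) (hm : (T ∩ Sc 𝒰 F D P sb).Nonempty) :
    T ⊆ Sc 𝒰 F D P sb := by
  obtain ⟨x, hx, hx'⟩ := hm
  have h1 := hT.subset_connectedComponentIn hx hTs
  have h2 : connectedComponentIn (Sg 𝒰 F D P) sb = connectedComponentIn (Sg 𝒰 F D P) x := connectedComponentIn_eq hx'
  unfold Sc
  rw [h2]
  exact h1

/-- a lift of a locally injective function through `Fh` is determined by one value -/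
theorem fh_lift_eq (h : LT 𝒰 F D P) {S : Set ℂ} (So : IsOpen S) (Sp : IsPreconnected S) {Q Q' H : ℂ → ℂ}
    (hQ : DifferentiableOn ℂ Q S) (hQ' : DifferentiableOn ℂ Q' S) (h1 : ∀ u ∈ S, Q u ∈ Sg 𝒰 F D P ∧ Fh 𝒰 F D P (Q u) = H u)
    (h2 : ∀ u ∈ S, Q' u ∈ Sg 𝒰 F D P ∧ Fh 𝒰 F D P (Q' u) = H u) (hH : ∀ u ∈ S, deriv H u ≠ 0) {q : ℂ} (hq : q ∈ S)
    (he : Q q = Q' q) : EqOn Q Q' S := by
  exact lift_eq (sg_open h) (fh_diff h) So Sp hQ hQ' h1 h2 hH hq he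

end Pool.Agent.H41.XF
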