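import Pool.Agent.H41.XF.Fl
import Pool.Agent.H41.XF.Nea
import Pool.Agent.H39.HO.PB

/-!
# ROB => DIM (MP_8f2e1c_an), chapter X: GAL, SYM and PB for the relation `Lr` (axioms (A3), (A6), (A7))

`lr_loc`: the germ of a lift and the field calculus. `lr_tr`: transport of the field by a sequence of maps `Φt n` (`XI`) which converge in the charts
to `T`: `Lr S H G`, `Lr S (T ∘ H) G'` imply `G' = a G + c`, `a` real. Instances: `lr_gal` (`Φt = id`), `lr_pb` (`Φt n = f^[κ n]`), `lr_sym` (the involution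
at a simple critical point).
-/

set_option autoImplicit false

open Filter Topology Metric Set MeasureTheory

namespace Pool.Agent.H41.XF

open Pool.Agent.H56.UD
open Pool.Agent.H43.UB (Fh uh_der ph_closed)
open Pool.Agent.H64.XL (LT Lr)

variable {f : ℂ → ℂ} {U J P Cr E : Set ℂ} {δ b0 : ℝ} {η : ℂ → ℂ → ℂ} {ρ : ℝ} {X hh μ : ℂ → ℂ}
variable {𝒰 : Ultrafilter ℕ} {z x R σ : ℕ → ℂ} {k : ℕ → ℕ} {S : Set ℂ} {H H' G G' T : ℂ → ℂ} {Φt : ℕ → ℂ → ℂ}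

/-- the germ of a lift -/
theorem lr_loc (h : PS f U J P Cr δ η ρ) (hX : FX f U J E δ X hh μ b0)
    (hT : LT 𝒰 (Fn f z k x R σ) (Dn f U J δ z k σ) (Pn P x R)) (hz : ∀ n, z n ∈ E) (hR : ∀ n, R n ≠ 0)
    (hσ : ∀ n, σ n ≠ 0) (ht : Tendsto σ (𝒰 : Filter ℕ) (𝓝 0)) {b : ℂ} (hb : Tendsto (fun n => μ (z n)) (𝒰 : Filter ℕ) (𝓝 b))
    (hL : Lr 𝒰 (Fn f z k x R σ) (Dn f U J δ z k σ) (Pn P x R) S H G) {u0 : ℂ} (hu0 : u0 ∈ S) :
    ∃ (r : ℝ) (g : ℂ → ℂ), 0 < r ∧ DifferentiableOn ℂ g (ball (H u0) r) ∧ (∀ w ∈ ball (H u0) r, deriv g w ≠ 0) ∧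
      HL 𝒰 (Yn X x R fun n => σ n / (starRingEnd ℂ) (σ n)) (ball (H u0) r)
        (fun w => b * ((starRingEnd ℂ) (g w) / deriv g w)) ∧ ∀ᶠ u in 𝓝 u0, G u = g (H u) := by
  obtain ⟨hSo, hSc, hH, hH0, hG, hgd⟩ := hL
  have hg0 := hgd u0 hu0
  have hc : (Ph 𝒰 (Pn P x R))ᶜ ∈ 𝓝 (H u0) := (ph_closed (𝒰 := 𝒰) (P := Pn P x R)).isOpen_compl.mem_nhds hg0.1
  obtain ⟨r, hr, hrb⟩ := Metric.nhds_basis_closedBall.mem_iff.1 hc
  obtain ⟨Gn, g, h1, h2, _, h4, h5, h6, h7⟩ := gb hT hg0 hr (Set.disjoint_left.2 fun x hx hx' => hrb hx hx')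
  have hgne : ∀ w ∈ ball (H u0) r, deriv g w ≠ 0 := fun w hw => uh_der isOpen_ball h4 h5 hw
  refine ⟨r, g, hr, h4, hgne, ?_, ?_⟩
  · refine fl_fr (k := k) h hX hz hR hσ ht hb isOpen_ball (fun K hK _ => ?_) h2 hgne
    filter_upwards [h1] with n hn
    exact ⟨ball (H u0) r, isOpen_ball, hK, hn.1, hn.2⟩
  · have hHc : ContinuousAt H u0 := (hH.differentiableAt (hSo.mem_nhds hu0)).continuousAt
    have hn1 : ∀ᶠ u in 𝓝 u0, H u ∈ ball (H u0) r ∧ u ∈ S :=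
      (hHc.eventually (ball_mem_nhds _ hr)).and (hSo.mem_nhds hu0)
    obtain ⟨t, ht0, hts⟩ := Metric.mem_nhds_iff.1 hn1
    have hS1 : ball u0 t ⊆ S := fun u hu => (hts hu).2
    have hS2 : MapsTo H (ball u0 t) (ball (H u0) r) := fun u hu => (hts hu).1
    have hEq := fh_lift_eq hT isOpen_ball (convex_ball u0 t).isPreconnected (Q := G) (Q' := fun u => g (H u)) (H := H)
      (hG.mono hS1) (h4.comp (hH.mono hS1) hS2) (fun u hu => ⟨⟨_, hgd u (hS1 hu)⟩, fh_eq hT (hgd u (hS1 hu))⟩)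
      (fun u hu => ⟨⟨_, h7 _ (hS2 hu)⟩, fh_eq hT (h7 _ (hS2 hu))⟩) (fun u hu => hH0 u (hS1 hu)) (mem_ball_self ht0)
      h6.symm
    filter_upwards [ball_mem_nhds u0 ht0] with u hu
    exact hEq hu

/-- lifts over a transport of the field -/
theorem lr_tr (h : PS f U J P Cr δ η ρ) (hX : FX f U J E δ X hh μ b0)
    (hT : LT 𝒰 (Fn f z k x R σ) (Dn f U J δ z k σ) (Pn P x R)) (hz : ∀ n, z n ∈ E) (hR : ∀ n, R n ≠ 0)
    (hσ : ∀ n, σ n ≠ 0) (ht : Tendsto σ (𝒰 : Filter ℕ) (𝓝 0))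
    (hL : Lr 𝒰 (Fn f z k x R σ) (Dn f U J δ z k σ) (Pn P x R) S H G)
    (hL' : Lr 𝒰 (Fn f z k x R σ) (Dn f U J δ z k σ) (Pn P x R) S H' G') {u0 : ℂ} (hu0 : u0 ∈ S) {r : ℝ} (hr : 0 < r)
    (hI : ∀ᶠ n in (𝒰 : Filter ℕ), ∃ O, XI X O (Φt n) ∧ ∀ w ∈ ball (H u0) r, x n + R n * w ∈ O)
    (hc : TendstoLocallyUniformlyOn (fun n => ch (Φt n) (x n) (R n) (x n) (R n)) T (𝒰 : Filter ℕ) (ball (H u0) r))
    (hTH : ∀ᶠ u in 𝓝 u0, T (H u) = H' u) : ∃ (a : ℝ) (c : ℂ), a ≠ 0 ∧ ∀ u ∈ S, G' u = a * G u + c := by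
  obtain ⟨b, hb0, hb⟩ := mu_lim hX 𝒰 hz
  obtain ⟨r1, g, hr1, g1, g2, g3, g4⟩ := lr_loc h hX hT hz hR hσ ht hb hL hu0
  obtain ⟨r2, g', hr2, g1', g2', g3', g4'⟩ := lr_loc h hX hT hz hR hσ ht hb hL' hu0
  have hI' : ∀ s ≤ r, ∀ K ⊆ ball (H u0) s, IsCompact K → ∀ᶠ n in (𝒰 : Filter ℕ), ∃ O, XI X O (Φt n) ∧
      ∀ w ∈ K, x n + R n * w ∈ O := by
    intro s hs K hK _
    filter_upwards [hI] with n hn
    obtain ⟨O, o1, o2⟩ := hn
    exact ⟨O, o1, fun w hw => o2 w (ball_subset_ball hs (hK hw))⟩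
  have hTd : DifferentiableOn ℂ T (ball (H u0) r) := hn_diff isOpen_ball (ch_hn (hI' r le_rfl)) hc
  have hH0 : H u0 ∈ ball (H u0) r := mem_ball_self hr
  have hTu : T (H u0) = H' u0 := hTH.self_of_nhds
  have hTa : DifferentiableAt ℂ T (H u0) := hTd.differentiableAt (isOpen_ball.mem_nhds hH0)
  have hHa : DifferentiableAt ℂ H u0 := hL.2.2.1.differentiableAt (hL.1.mem_nhds hu0)
  -- the derivative of `T`
  have hT0 : deriv T (H u0) ≠ 0 := by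
    intro h0
    have e1 : HasDerivAt (T ∘ H) (deriv T (H u0) * deriv H u0) u0 := hTa.hasDerivAt.comp u0 hHa.hasDerivAt
    have e2 : deriv H' u0 = deriv T (H u0) * deriv H u0 := by
      rw [← e1.deriv]
      refine Filter.EventuallyEq.deriv_eq ?_
      filter_upwards [hTH] with u hu
      exact hu.symm
    rw [h0, zero_mul] at e2
    exact hL'.2.2.2.1 u0 hu0 e2
  obtain ⟨r3, hr3, hr31, hr32, hr33⟩ : ∃ r3 : ℝ, 0 < r3 ∧ r3 ≤ r ∧ r3 ≤ r1 ∧
      MapsTo T (ball (H u0) r3) (ball (H' u0) r2) := by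
    have e1 : ∀ᶠ w in 𝓝 (H u0), T w ∈ ball (H' u0) r2 := by
      rw [← hTu]
      exact hTa.continuousAt.eventually (ball_mem_nhds _ hr2)
    obtain ⟨t, ht1, ht2⟩ := Metric.mem_nhds_iff.1 e1
    exact ⟨min t (min r r1), by positivity, (min_le_right _ _).trans (min_le_left _ _),
      (min_le_right _ _).trans (min_le_right _ _), fun w hw => ht2 (ball_subset_ball (min_le_left _ _) hw)⟩
  obtain ⟨⟨a, c, ha, ha2, hac⟩, -⟩ := fl_gal (S := ball (H u0) r3) (S' := ball (H' u0) r2) isOpen_ball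
    (convex_ball _ _).isPreconnected isOpen_ball hR hR (hI' r3 hr31)
    (hc.mono (ball_subset_ball hr31)) hr33 (g1.mono (ball_subset_ball hr32)) (fun w hw => g2 w (ball_subset_ball hr32 hw))
    g1' g2' hb0 hb0 (hl_mono g3 (ball_subset_ball hr32)) g3' (mem_ball_self hr3) hT0
  have har : ((a.re : ℝ) : ℂ) = a := by
    rw [← Complex.conj_eq_iff_re, Complex.conj_eq_iff_im]
    exact ha2 rfl
  refine ⟨a.re, c, fun h0 => ha (by rw [← har, h0]; rfl), ?_⟩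
  have hEq : EqOn G' (fun u => a * G u + c) S := by
    refine (hL'.2.2.2.2.1.analyticOnNhd hL.1).eqOn_of_preconnected_of_eventuallyEq
      (((hL.2.2.2.2.1.const_mul a).add_const c).analyticOnNhd hL.1) hL.2.1.isPreconnected hu0 ?_
    have e1 : ∀ᶠ u in 𝓝 u0, H u ∈ ball (H u0) r3 := hHa.continuousAt.eventually (ball_mem_nhds _ hr3)
    filter_upwards [e1, g4, g4', hTH] with u u1 u2 u3 u4
    rw [u3, ← u4, hac _ u1, u2]
  intro u hu
  rw [hEq hu, har]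

/-- (A3) -/
theorem lr_gal (h : PS f U J P Cr δ η ρ) (hX : FX f U J E δ X hh μ b0)
    (hT : LT 𝒰 (Fn f z k x R σ) (Dn f U J δ z k σ) (Pn P x R)) (hz : ∀ n, z n ∈ E) (hR : ∀ n, R n ≠ 0)
    (hσ : ∀ n, σ n ≠ 0) (ht : Tendsto σ (𝒰 : Filter ℕ) (𝓝 0))
    (hL : Lr 𝒰 (Fn f z k x R σ) (Dn f U J δ z k σ) (Pn P x R) S H G)
    (hL' : Lr 𝒰 (Fn f z k x R σ) (Dn f U J δ z k σ) (Pn P x R) S H G') :
    ∃ (a : ℝ) (c : ℂ), a ≠ 0 ∧ ∀ u ∈ S, G' u = a * G u + c := by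
  rcases S.eq_empty_or_nonempty with rfl | ⟨u0, hu0⟩
  · exact ⟨1, 0, one_ne_zero, fun u hu => absurd hu (notMem_empty u)⟩
  have hce : ∀ n, ch id (x n) (R n) (x n) (R n) = id := by
    intro n
    funext u
    show (x n + R n * u - x n) / R n = u
    rw [add_sub_cancel_left, mul_div_cancel_left₀ _ (hR n)]
  refine lr_tr h hX hT hz hR hσ ht hL hL' hu0 one_pos (Φt := fun _ => id) (T := id)
    (Eventually.of_forall fun n => ⟨univ, xi_id X, fun w _ => mem_univ _⟩) ?_ (Eventually.of_forall fun u => rfl)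
  simp only [hce]
  intro V hV u _
  refine ⟨univ, Filter.univ_mem, Eventually.of_forall fun n y _ => ?_⟩
  exact refl_mem_uniformity hV

/-- (A7) -/
theorem lr_pb (h : PS f U J P Cr δ η ρ) (hX : FX f U J E δ X hh μ b0)
    (hT : LT 𝒰 (Fn f z k x R σ) (Dn f U J δ z k σ) (Pn P x R)) (hz : ∀ n, z n ∈ E) (hR : ∀ n, R n ≠ 0)
    (hσ : ∀ n, σ n ≠ 0) (ht : Tendsto σ (𝒰 : Filter ℕ) (𝓝 0))
    (hL : Lr 𝒰 (Fn f z k x R σ) (Dn f U J δ z k σ) (Pn P x R) S H G)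
    (hL' : Lr 𝒰 (Fn f z k x R σ) (Dn f U J δ z k σ) (Pn P x R) S H' G') {u0 : ℂ} (hu0 : u0 ∈ S) {r : ℝ} (hr : 0 < r)
    {κ : ℕ → ℕ} {Tn : ℕ → ℂ → ℂ} (hd : ∀ᶠ n in (𝒰 : Filter ℕ), ∀ w ∈ ball (H u0) r, x n + R n * w ∈ dm f U J δ (κ n) ∧
      f^[κ n] (x n + R n * w) = x n + R n * Tn n w)
    (hc : TendstoLocallyUniformlyOn Tn T (𝒰 : Filter ℕ) (ball (H u0) r))
    (hTH : ∀ᶠ u in 𝓝 u0, T (H u) = H' u) : ∃ (a : ℝ) (c : ℂ), a ≠ 0 ∧ ∀ u ∈ S, G' u = a * G u + c := by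
  refine lr_tr h hX hT hz hR hσ ht hL hL' hu0 hr (Φt := fun n => f^[κ n]) (T := T) ?_ ?_ hTH
  · filter_upwards [hd] with n hn
    exact ⟨dm f U J δ (κ n), xi_it h hX (κ n), fun w hw => (hn w hw).1⟩
  · intro V hV u hu
    obtain ⟨t, ht1, ht2⟩ := hc V hV u hu
    refine ⟨t ∩ ball (H u0) r, Filter.inter_mem ht1 self_mem_nhdsWithin, ?_⟩
    filter_upwards [ht2, hd] with n hn hn' y hy
    have e1 : ch (f^[κ n]) (x n) (R n) (x n) (R n) y = Tn n y := by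
      rw [ch, (hn' y hy.2).2, add_sub_cancel_left, mul_div_cancel_left₀ _ (hR n)]
    show (T y, ch (f^[κ n]) (x n) (R n) (x n) (R n) y) ∈ V
    rw [e1]
    exact hn y hy.1

/-- the involution at a simple critical point -/
theorem iota_ex (h : PS f U J P Cr δ η ρ) (hX : FX f U J E δ X hh μ b0) {c : ℂ} (hc : c ∈ Cr) :
    ∃ (ι : ℂ → ℂ) (r : ℝ), 0 < r ∧ XI X (ball c r \ {c}) ι ∧ ι c = c ∧ HasDerivAt ι (-1) c := by
  obtain ⟨n1, n2, n3, n4⟩ := h.nf c hc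
  obtain ⟨e, he⟩ : ∃ e, e = η c := ⟨_, rfl⟩
  rw [← he] at n1 n2 n3 n4
  have hρ := h.hρ
  have hinv := Pool.Agent.H39.HO.inj_hol isOpen_ball n1 n2
  have hop : IsOpen (e '' ball 0 ρ) := Pool.Agent.H39.HO.inj_open isOpen_ball n1 n2 subset_rfl isOpen_ball
  obtain ⟨i, hi⟩ : ∃ i, i = Function.invFunOn e (ball 0 ρ) := ⟨_, rfl⟩
  rw [← hi] at hinv
  have him : ∀ y ∈ e '' ball 0 ρ, i y ∈ ball (0 : ℂ) ρ ∧ e (i y) = y := fun y hy => by
    rw [hi]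
    exact ⟨Function.invFunOn_mem hy, Function.invFunOn_eq hy⟩
  have hie : ∀ v ∈ ball (0 : ℂ) ρ, i (e v) = v := fun v hv =>
    n2 (him _ (mem_image_of_mem e hv)).1 hv (him _ (mem_image_of_mem e hv)).2
  have h0 : (0 : ℂ) ∈ ball (0 : ℂ) ρ := mem_ball_self hρ
  have hcm : c ∈ e '' ball 0 ρ := ⟨0, h0, n3⟩
  have hic : i c = 0 := by rw [← n3]; exact hie 0 h0
  obtain ⟨r, hr, hrs⟩ := Metric.isOpen_iff.1 hop c hcm
  have hneg : ∀ v ∈ ball (0 : ℂ) ρ, -v ∈ ball (0 : ℂ) ρ := fun v hv => by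
    rw [mem_ball_zero_iff, norm_neg]
    exact mem_ball_zero_iff.1 hv
  have hιd : DifferentiableOn ℂ (fun y => e (-(i y))) (ball c r) :=
    n1.comp (hinv.mono hrs).neg fun y hy => hneg _ (him y (hrs hy)).1
  -- derivatives of `e`
  have hde : ∀ v ∈ ball (0 : ℂ) ρ, deriv f (e v) * deriv e v = 2 * v := by
    intro v hv
    have d1 := (n1.differentiableAt (isOpen_ball.mem_nhds hv)).hasDerivAt
    have d2 := (h.fd.differentiableAt (h.Uo.mem_nhds (n4 v hv).1)).hasDerivAt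
    have d3 : HasDerivAt (f ∘ e) (deriv f (e v) * deriv e v) v := d2.comp v d1
    have d4 : HasDerivAt (f ∘ e) (2 * v) v := by
      have d5 : HasDerivAt (fun v : ℂ => f c + v ^ 2) (2 * v) v := by
        simpa using (hasDerivAt_pow 2 v).const_add (f c)
      refine d5.congr_of_eventuallyEq ?_
      filter_upwards [isOpen_ball.mem_nhds hv] with w hw
      exact (n4 w hw).2
    exact d3.unique d4
  have hdi : deriv e 0 * deriv i c = 1 := by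
    have d1 := (n1.differentiableAt (isOpen_ball.mem_nhds h0)).hasDerivAt
    have d2 := (hinv.differentiableAt (hop.mem_nhds hcm)).hasDerivAt
    have d1' : HasDerivAt e (deriv e 0) (i c) := by rw [hic]; exact d1
    have d3 : HasDerivAt (e ∘ i) (deriv e 0 * deriv i c) c := d1'.comp c d2
    have d4 : HasDerivAt (e ∘ i) 1 c := by
      refine (hasDerivAt_id c).congr_of_eventuallyEq ?_
      filter_upwards [hop.mem_nhds hcm] with y hy
      exact (him y hy).2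
    exact d3.unique d4
  refine ⟨fun y => e (-(i y)), r, hr, ?_, ?_, ?_⟩
  · refine xi_div (xi_f h hX) (xi_f h hX) (isOpen_ball.sdiff isClosed_singleton) (hιd.mono sdiff_subset) fun y hy => ?_
    have hy1 := him y (hrs hy.1)
    have hy2 := n4 _ (hneg _ hy1.1)
    have hy3 := n4 _ hy1.1
    refine ⟨by rw [← hy1.2]; exact hy3.1, hy2.1, ?_, fun hz => ?_⟩
    · rw [hy2.2, neg_sq, ← hy3.2, hy1.2]
    · have := hde _ (hneg _ hy1.1)
      rw [hz, zero_mul] at this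
      have hiy : i y = 0 := by
        have h2 : (2 : ℂ) ≠ 0 := two_ne_zero
        have h3 := (mul_eq_zero.1 this.symm).resolve_left h2
        exact neg_eq_zero.1 h3
      apply hy.2
      rw [mem_singleton_iff, ← hy1.2, hiy, n3]
  · show e (-(i c)) = c
    rw [hic, neg_zero, n3]
  · have d1 := (n1.differentiableAt (isOpen_ball.mem_nhds h0)).hasDerivAt
    have d2 := ((hinv.differentiableAt (hop.mem_nhds hcm)).hasDerivAt).neg
    have d1' : HasDerivAt e (deriv e 0) ((fun y => -(i y)) c) := by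
      show HasDerivAt e (deriv e 0) (-(i c))
      rw [hic, neg_zero]
      exact d1
    have d3 : HasDerivAt (e ∘ fun y => -(i y)) (deriv e 0 * -(deriv i c)) c := d1'.comp c d2
    have d4 : deriv e 0 * -(deriv i c) = -1 := by linear_combination -hdi
    rw [d4] at d3
    exact d3

/-- a map in charts at a fixed point, radii tending to `0` -/
theorem ch_lim {Φ : ℂ → ℂ} {c m : ℂ} (hΦ : HasDerivAt Φ m c) (hc : Φ c = c) (hR : ∀ n, R n ≠ 0)
    (hR0 : Tendsto R (𝒰 : Filter ℕ) (𝓝 0)) {B : Set ℂ} (hB : Bornology.IsBounded B) :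
    TendstoLocallyUniformlyOn (fun n => ch Φ c (R n) c (R n)) (fun w => m * w) (𝒰 : Filter ℕ) B := by
  refine TendstoUniformlyOn.tendstoLocallyUniformlyOn ?_
  rw [Metric.tendstoUniformlyOn_iff]
  intro ε hε
  obtain ⟨L, hL⟩ := hB.subset_ball (0 : ℂ)
  obtain ⟨M, hM, hLM⟩ : ∃ M : ℝ, 0 < M ∧ L ≤ M := ⟨max L 1, by positivity, le_max_left _ _⟩
  have h1 := hasDerivAt_iff_isLittleO.1 hΦ
  have h2 := h1.def (c := ε / 2 / M) (by positivity)
  obtain ⟨d, hd, hd2⟩ := Metric.eventually_nhds_iff.1 h2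
  have h3 : ∀ᶠ n in (𝒰 : Filter ℕ), ‖R n‖ * M < d := by
    have h4 : Tendsto (fun n => ‖R n‖ * M) (𝒰 : Filter ℕ) (𝓝 0) := by
      have h5 := hR0.norm.mul_const M
      rwa [norm_zero, zero_mul] at h5
    exact h4.eventually_lt_const hd
  filter_upwards [h3] with n hn w hw
  have hwM : ‖w‖ < M := (mem_ball_zero_iff.1 (hL hw)).trans_le hLM
  have hRn : 0 < ‖R n‖ := norm_pos_iff.2 (hR n)
  have h4 : dist (c + R n * w) c < d := by
    rw [dist_eq_norm, add_sub_cancel_left, norm_mul]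
    exact (mul_lt_mul_of_pos_left hwM hRn).trans hn
  have h5 := hd2 h4
  rw [hc, add_sub_cancel_left, smul_eq_mul, norm_mul] at h5
  rw [dist_comm, dist_eq_norm]
  have h6 : ch Φ c (R n) c (R n) w - m * w = (Φ (c + R n * w) - c - R n * w * m) / R n := by
    rw [ch]
    have := hR n
    field_simp
  rw [h6, norm_div, div_lt_iff₀ hRn]
  calc ‖Φ (c + R n * w) - c - R n * w * m‖ ≤ ε / 2 / M * (‖R n‖ * ‖w‖) := h5
    _ ≤ ε / 2 / M * (‖R n‖ * M) := by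
        refine mul_le_mul_of_nonneg_left (mul_le_mul_of_nonneg_left hwM.le hRn.le) (by positivity)
    _ = ε / 2 * ‖R n‖ := by
        field_simp
    _ < ε * ‖R n‖ := by nlinarith

/-- (A6) -/
theorem lr_sym {c : ℂ} (h : PS f U J P Cr δ η ρ) (hX : FX f U J E δ X hh μ b0) (hcr : c ∈ Cr)
    (hT : LT 𝒰 (Fn f z k x R σ) (Dn f U J δ z k σ) (Pn P x R)) (hx : ∀ n, x n = c) (hz : ∀ n, z n ∈ E)
    (hR : ∀ n, R n ≠ 0) (hR0 : Tendsto R (𝒰 : Filter ℕ) (𝓝 0))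
    (hσ : ∀ n, σ n ≠ 0) (ht : Tendsto σ (𝒰 : Filter ℕ) (𝓝 0))
    (hL : Lr 𝒰 (Fn f z k x R σ) (Dn f U J δ z k σ) (Pn P x R) S H G)
    (hL' : Lr 𝒰 (Fn f z k x R σ) (Dn f U J δ z k σ) (Pn P x R) S (fun u => - H u) G') :
    ∃ (a : ℝ) (c : ℂ), a ≠ 0 ∧ ∀ u ∈ S, G' u = a * G u + c := by
  rcases S.eq_empty_or_nonempty with rfl | ⟨u0, hu0⟩
  · exact ⟨1, 0, one_ne_zero, fun u hu => absurd hu (notMem_empty u)⟩
  obtain ⟨ι, r, hr, i1, i2, i3⟩ := iota_ex h hX hcr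
  have h0 : H u0 ≠ 0 := by
    intro h0
    have h1 := (hL.2.2.2.2.2 u0 hu0).1
    apply h1
    rw [h0]
    intro ε hε
    exact Eventually.of_forall fun n => ⟨0, hT.P0 n, by simpa using hε⟩
  have hpos : 0 < ‖H u0‖ := norm_pos_iff.2 h0
  refine lr_tr h hX hT hz hR hσ ht hL hL' hu0 hpos (Φt := fun _ => ι) (T := fun w => (-1) * w) ?_ ?_
    (Eventually.of_forall fun u => by simp)
  · have h3 : ∀ᶠ n in (𝒰 : Filter ℕ), ‖R n‖ * (2 * ‖H u0‖) < r := by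
      have h4 : Tendsto (fun n => ‖R n‖ * (2 * ‖H u0‖)) (𝒰 : Filter ℕ) (𝓝 0) := by
        have h5 := hR0.norm.mul_const (2 * ‖H u0‖)
        rwa [norm_zero, zero_mul] at h5
      exact h4.eventually_lt_const hr
    filter_upwards [h3] with n hn
    refine ⟨_, i1, fun w hw => ?_⟩
    have hRn : 0 < ‖R n‖ := norm_pos_iff.2 (hR n)
    rw [mem_ball, dist_eq_norm] at hw
    have hw2 : ‖w‖ < 2 * ‖H u0‖ := by
      have := norm_add_le (w - H u0) (H u0)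
      rw [sub_add_cancel] at this
      linarith
    have hw0 : w ≠ 0 := by
      rintro rfl
      rw [zero_sub, norm_neg] at hw
      exact lt_irrefl _ hw
    rw [hx n]
    refine ⟨?_, ?_⟩
    · rw [mem_ball, dist_eq_norm, add_sub_cancel_left, norm_mul]
      exact (mul_lt_mul_of_pos_left hw2 hRn).trans hn
    · rw [mem_singleton_iff, add_eq_left]
      exact mul_ne_zero (hR n) hw0
  · simp only [hx]
    exact ch_lim i3 i2 hR hR0 isBounded_ball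

end Pool.Agent.H41.XF
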